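import Pool.Agent.Lib.MP_1c3dfa_lc.Defs

set_option autoImplicit false

/-! # Basic lemmas on finite sets, blocks and unions -/

namespace Pool.Agent.Lib.MP_1c3dfa_lc

open Set

theorem mn_mem {s : Finset ℕ} (h : s.Nonempty) : mn s ∈ s := by
  have := Nat.sInf_mem (s := (s : Set ℕ)) h
  exact this

theorem mn_le {s : Finset ℕ} {a : ℕ} (h : a ∈ s) : mn s ≤ a := Nat.sInf_le h

theorem le_mx {s : Finset ℕ} {a : ℕ} (h : a ∈ s) : a ≤ mx s := Finset.le_sup (f := id) h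

theorem mx_mem {s : Finset ℕ} (h : s.Nonempty) : mx s ∈ s := by
  obtain ⟨a, ha, hm⟩ := Finset.exists_mem_eq_sup s h id
  have : mx s = a := hm
  rw [this]; exact ha

theorem le_mn_iff {s : Finset ℕ} (h : s.Nonempty) {k : ℕ} : k ≤ mn s ↔ ∀ a ∈ s, k ≤ a :=
  ⟨fun h1 _ ha => h1.trans (mn_le ha), fun h1 => h1 _ (mn_mem h)⟩

theorem mx_le_iff {s : Finset ℕ} {k : ℕ} : mx s ≤ k ↔ ∀ a ∈ s, a ≤ k := by
  unfold mx; simp

theorem mn_le_mn_of_subset {s t : Finset ℕ} (hs : s.Nonempty) (h : s ⊆ t) : mn t ≤ mn s :=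
  mn_le (h (mn_mem hs))

theorem mx_le_mx_of_subset {s t : Finset ℕ} (h : s ⊆ t) : mx s ≤ mx t := by
  rw [mx_le_iff]; intro a ha; exact le_mx (h ha)

theorem Lt.mn_lt {s t : Finset ℕ} (h : Lt s t) (hs : s.Nonempty) (ht : t.Nonempty) :
    mn s < mn t := h _ (mn_mem hs) _ (mn_mem ht)

theorem Lt.mx_lt_mn {s t : Finset ℕ} (h : Lt s t) (hs : s.Nonempty) (ht : t.Nonempty) :
    mx s < mn t := h _ (mx_mem hs) _ (mn_mem ht)

theorem lt_iff_mx_lt_mn {s t : Finset ℕ} (hs : s.Nonempty) (ht : t.Nonempty) :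
    Lt s t ↔ mx s < mn t :=
  ⟨fun h => h.mx_lt_mn hs ht, fun h _ ha _ hb => ((le_mx ha).trans_lt h).trans_le (mn_le hb)⟩

theorem Lt.mono {s t s' t' : Finset ℕ} (h : Lt s t) (hs : s' ⊆ s) (ht : t' ⊆ t) : Lt s' t' :=
  fun a ha b hb => h a (hs ha) b (ht hb)

theorem Lt.trans {s t u : Finset ℕ} (h1 : Lt s t) (h2 : Lt t u) (ht : t.Nonempty) : Lt s u :=
  fun a ha b hb => by
    obtain ⟨c, hc⟩ := ht
    exact (h1 a ha c hc).trans (h2 c hc b hb)

theorem Lt.union_left {s t u : Finset ℕ} (h1 : Lt s u) (h2 : Lt t u) : Lt (s ∪ t) u := by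
  intro a ha b hb
  rcases Finset.mem_union.1 ha with h | h
  · exact h1 a h b hb
  · exact h2 a h b hb

theorem Lt.union_right {s t u : Finset ℕ} (h1 : Lt s t) (h2 : Lt s u) : Lt s (t ∪ u) := by
  intro a ha b hb
  rcases Finset.mem_union.1 hb with h | h
  · exact h1 a ha b h
  · exact h2 a ha b h

theorem mn_union_of_lt {s t : Finset ℕ} (h : Lt s t) (hs : s.Nonempty) : mn (s ∪ t) = mn s := by
  apply le_antisymm
  · exact mn_le (Finset.mem_union_left _ (mn_mem hs))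
  · rw [le_mn_iff (hs.mono Finset.subset_union_left)]
    intro a ha
    rcases Finset.mem_union.1 ha with h1 | h1
    · exact mn_le h1
    · exact (h _ (mn_mem hs) _ h1).le

theorem mx_union_of_lt {s t : Finset ℕ} (h : Lt s t) (ht : t.Nonempty) : mx (s ∪ t) = mx t := by
  apply le_antisymm
  · rw [mx_le_iff]
    intro a ha
    rcases Finset.mem_union.1 ha with h1 | h1
    · exact (h _ h1 _ (mx_mem ht)).le
    · exact le_mx h1
  · exact le_mx (Finset.mem_union_right _ (mx_mem ht))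

theorem Block.lt_of_lt {X : ℕ → Finset ℕ} (hX : Block X) {i j : ℕ} (h : i < j) :
    Lt (X i) (X j) := by
  induction j with
  | zero => omega
  | succ j ih =>
    rcases Nat.lt_succ_iff_lt_or_eq.1 h with h1 | h1
    · exact (ih h1).trans (hX.lt j) (hX.ne j)
    · subst h1; exact hX.lt _

theorem Block.le_mn {X : ℕ → Finset ℕ} (hX : Block X) (i : ℕ) : i ≤ mn (X i) := by
  induction i with
  | zero => exact Nat.zero_le _
  | succ i ih =>
    have := (hX.lt i).mn_lt (hX.ne i) (hX.ne (i + 1))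
    omega

theorem Block.mn_mono {X : ℕ → Finset ℕ} (hX : Block X) : StrictMono fun i => mn (X i) :=
  fun i j h => (hX.lt_of_lt h).mn_lt (hX.ne i) (hX.ne j)

theorem Block.index_lt {X : ℕ → Finset ℕ} (hX : Block X) {i j : ℕ} (h : Lt (X i) (X j)) :
    i < j := by
  by_contra hc
  rcases Nat.lt_or_ge j i with h1 | h1
  · have h2 := hX.lt_of_lt h1
    obtain ⟨a, ha⟩ := hX.ne i
    obtain ⟨b, hb⟩ := hX.ne j
    have h3 := h a ha b hb
    have h4 := h2 b hb a ha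
    omega
  · have : i = j := by omega
    subst this
    obtain ⟨a, ha⟩ := hX.ne i
    exact lt_irrefl _ (h a ha a ha)

theorem Block.mem_FUs {X : ℕ → Finset ℕ} (i : ℕ) : X i ∈ FUs X :=
  ⟨{i}, Finset.singleton_nonempty i, by simp⟩

theorem Block.nonempty_of_mem {X : ℕ → Finset ℕ} (hX : Block X) {s : Finset ℕ} (h : s ∈ FUs X) :
    s.Nonempty := by
  obtain ⟨I, ⟨i, hi⟩, rfl⟩ := h
  obtain ⟨a, ha⟩ := hX.ne i
  exact ⟨a, Finset.mem_biUnion.2 ⟨i, hi, ha⟩⟩

theorem FUs_union {X : ℕ → Finset ℕ} {s t : Finset ℕ} (hs : s ∈ FUs X) (ht : t ∈ FUs X) :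
    s ∪ t ∈ FUs X := by
  obtain ⟨I, hI, rfl⟩ := hs
  obtain ⟨J, hJ, rfl⟩ := ht
  exact ⟨I ∪ J, hI.mono Finset.subset_union_left, by
    ext a; simp only [Finset.mem_union, Finset.mem_biUnion]
    constructor
    · rintro (⟨i, hi, ha⟩ | ⟨i, hi, ha⟩)
      · exact ⟨i, Or.inl hi, ha⟩
      · exact ⟨i, Or.inr hi, ha⟩
    · rintro ⟨i, hi | hi, ha⟩
      · exact Or.inl ⟨i, hi, ha⟩
      · exact Or.inr ⟨i, hi, ha⟩⟩

/-- the shifted sequence is a block sequence -/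
theorem Block.shift {X : ℕ → Finset ℕ} (hX : Block X) (m : ℕ) : Block fun i => X (m + i) :=
  ⟨fun n => hX.ne _, fun n => hX.lt _⟩

/-- Members of `FUs X` whose minimum is at least `mn (X m)` lie in the tail. -/
theorem Block.mem_tail {X : ℕ → Finset ℕ} (hX : Block X) {m : ℕ} {t : Finset ℕ}
    (ht : t ∈ FUs X) (h : mn (X m) ≤ mn t) : t ∈ FUs fun i => X (m + i) := by
  obtain ⟨I, hI, rfl⟩ := ht
  have hI2 : ∀ i ∈ I, m ≤ i := by
    intro i hi
    by_contra hc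
    have h1 : mn (I.biUnion X) ≤ mn (X i) :=
      mn_le_mn_of_subset (hX.ne i) (Finset.subset_biUnion_of_mem X hi)
    have h2 := hX.mn_mono (show i < m by omega)
    simp only at h2
    omega
  refine ⟨I.image fun i => i - m, hI.image _, ?_⟩
  ext a
  simp only [Finset.mem_biUnion, Finset.mem_image, exists_exists_and_eq_and]
  constructor
  · rintro ⟨i, hi, ha⟩
    refine ⟨i, hi, ?_⟩
    rw [show m + (i - m) = i by have := hI2 i hi; omega]
    exact ha
  · rintro ⟨i, hi, ha⟩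
    rw [show m + (i - m) = i by have := hI2 i hi; omega] at ha
    exact ⟨i, hi, ha⟩

theorem FUs_tail_subset {X : ℕ → Finset ℕ} (m : ℕ) : (FUs fun i => X (m + i)) ⊆ FUs X := by
  rintro t ⟨I, hI, rfl⟩
  refine ⟨I.image fun i => m + i, hI.image _, ?_⟩
  ext a
  simp

theorem FUs_nonempty {X : ℕ → Finset ℕ} : (FUs X).Nonempty := ⟨X 0, Block.mem_FUs 0⟩

end Pool.Agent.Lib.MP_1c3dfa_lc
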