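import Pool.Agent.Lib.MP_1c3dfa_lc.Defs

set_option autoImplicit false

/-! Under CH there are three pairwise separated (non nearly coherent) p-points. -/

namespace Pool.Agent.Lib.MP_1c3dfa_lc

open Set Filter

universe u

/-- The values of `x` and `y` are separated by `g`. -/
def SepRange (g : ℕ → ℕ) (x y : ℕ → ℕ) : Prop :=
  ∀ a ∈ range x, ∀ b ∈ range y, (a ≤ b → g a < b) ∧ (b ≤ a → g b < a)

theorem step_sep (G : Fin 3 → Filter ℕ) (hne : ∀ i, (G i).NeBot)
    (hc : ∀ i, (G i).IsCountablyGenerated) (hG : ∀ i, G i ≤ atTop) (g : ℕ → ℕ) :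
    ∃ x : Fin 3 → ℕ → ℕ, (∀ i, Tendsto (x i) atTop (G i)) ∧
      ∀ i j, i ≠ j → SepRange g (x i) (x j) := by
  choose u hu using fun i => Filter.exists_seq_tendsto (G i)
  -- a monotone bound
  let h : ℕ → ℕ := fun n => n + ∑ m ∈ Finset.range (n + 1), g m
  have hmono : Monotone h := by
    intro a b hab
    have : ∑ m ∈ Finset.range (a + 1), g m ≤ ∑ m ∈ Finset.range (b + 1), g m :=
      Finset.sum_le_sum_of_subset (Finset.range_mono (by omega))
    exact Nat.add_le_add hab this
  have hg : ∀ n, g n ≤ h n := by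
    intro n
    have : g n ≤ ∑ m ∈ Finset.range (n + 1), g m :=
      Finset.single_le_sum (f := g) (fun _ _ => Nat.zero_le _) (Finset.mem_range.mpr (by omega))
    exact this.trans (Nat.le_add_left _ _)
  have hid : ∀ n, n ≤ h n := fun n => Nat.le_add_right _ _
  have hex : ∀ (i : Fin 3) (k b : ℕ), ∃ l, k ≤ l ∧ b < u i l := by
    intro i k b
    have h1 : Tendsto (u i) atTop atTop := (hu i).mono_right (hG i)
    obtain ⟨l, hl1, hl2⟩ := ((h1.eventually_gt_atTop b).and (eventually_ge_atTop k)).exists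
    exact ⟨l, hl2, hl1⟩
  choose l hl1 hl2 using hex
  -- the sequence of (index, value)
  let ix : ℕ → Fin 3 := fun n => ⟨n % 3, Nat.mod_lt _ (by norm_num)⟩
  let a : ℕ → ℕ × ℕ := fun n => Nat.rec (⟨l (ix 0) 0 0, u (ix 0) (l (ix 0) 0 0)⟩)
    (fun n p => ⟨l (ix (n + 1)) (n + 1) (h p.2), u (ix (n + 1)) (l (ix (n + 1)) (n + 1) (h p.2))⟩) n
  have ha2 : ∀ n, (a n).2 = u (ix n) (a n).1 := by
    intro n
    cases n <;> rfl
  have ha1 : ∀ n, n ≤ (a n).1 := by
    intro n
    cases n with
    | zero => exact Nat.zero_le _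
    | succ n => exact hl1 _ _ _
  have hstep : ∀ n, h (a n).2 < (a (n + 1)).2 := fun n => hl2 _ _ _
  have hsm : StrictMono fun n => (a n).2 := strictMono_nat_of_lt_succ fun n =>
    (hid _).trans_lt (hstep n)
  have hlt : ∀ n m, n < m → g (a n).2 < (a m).2 := by
    intro n m hnm
    exact (hg _).trans_lt ((hstep n).trans_le (hsm.monotone hnm))
  refine ⟨fun i m => (a (3 * m + i)).2, ?_, ?_⟩
  · intro i
    have h1 : (fun m => (a (3 * m + i)).2) = fun m => u i (a (3 * m + i)).1 := by
      funext m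
      rw [ha2]
      congr 1
      apply Fin.ext
      show (3 * m + i) % 3 = i
      have := i.2
      omega
    show Tendsto (fun m => (a (3 * m + i)).2) atTop (G i)
    rw [h1]
    refine (hu i).comp (tendsto_atTop_mono (fun m => ?_) tendsto_id)
    exact le_trans (by simp only [id]; omega) (ha1 _)
  · intro i j hij
    rintro _ ⟨m, rfl⟩ _ ⟨m', rfl⟩
    have hne' : 3 * m + (i : ℕ) ≠ 3 * m' + j := by
      intro heq
      apply hij
      apply Fin.ext
      have := i.2
      have := j.2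
      omega
    constructor
    · intro hle
      apply hlt
      exact lt_of_le_of_ne (hsm.le_iff_le.mp hle) hne'
    · intro hle
      apply hlt
      exact lt_of_le_of_ne (hsm.le_iff_le.mp hle) hne'.symm

theorem step_dec (G : Filter ℕ) (hne : G.NeBot) (hc : G.IsCountablyGenerated)
    (X : ℕ → Set ℕ) : ∃ G' : Filter ℕ, G'.NeBot ∧ G'.IsCountablyGenerated ∧ G' ≤ G ∧
      ∀ n, X n ∈ G' ∨ (X n)ᶜ ∈ G' := by
  classical
  let W : Ultrafilter ℕ := Ultrafilter.of G
  have hW : (W : Filter ℕ) ≤ G := Ultrafilter.of_le G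
  let Z : ℕ → Set ℕ := fun n => if X n ∈ W then X n else (X n)ᶜ
  have hZ : ∀ n, Z n ∈ W := by
    intro n
    show (if X n ∈ W then X n else (X n)ᶜ) ∈ W
    split_ifs with h
    · exact h
    · exact Ultrafilter.compl_mem_iff_notMem.mpr h
  have hle : (W : Filter ℕ) ≤ G ⊓ ⨅ n, 𝓟 (Z n) :=
    le_inf hW (le_iInf fun n => le_principal_iff.mpr (hZ n))
  refine ⟨G ⊓ ⨅ n, 𝓟 (Z n), NeBot.mono W.neBot hle, inferInstance, inf_le_left, ?_⟩
  intro n
  have h1 : Z n ∈ G ⊓ ⨅ n, 𝓟 (Z n) :=
    mem_inf_of_right (mem_iInf_of_mem n (mem_principal_self _))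
  by_cases h : X n ∈ W
  · left
    simpa only [Z, if_pos h] using h1
  · right
    simpa only [Z, if_neg h] using h1

theorem step (G : Fin 3 → Filter ℕ) (hne : ∀ i, (G i).NeBot)
    (hc : ∀ i, (G i).IsCountablyGenerated) (hG : ∀ i, G i ≤ atTop)
    (q : (ℕ → Set ℕ) × (ℕ → ℕ)) :
    ∃ x : Fin 3 → ℕ → ℕ, (∀ i, Tendsto (x i) atTop (G i)) ∧
      (∀ i n, q.1 n ∈ map (x i) atTop ∨ (q.1 n)ᶜ ∈ map (x i) atTop) ∧
      ∀ i j, i ≠ j → SepRange q.2 (x i) (x j) := by
  choose G' h1 h2 h3 h4 using fun i => step_dec (G i) (hne i) (hc i) q.1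
  obtain ⟨x, hx1, hx2⟩ := step_sep G' h1 h2 (fun i => (h3 i).trans (hG i)) q.2
  exact ⟨x, fun i => (hx1 i).mono_right (h3 i),
    fun i n => (h4 i n).imp (fun h => hx1 i h) (fun h => hx1 i h), hx2⟩

theorem mk_req : Cardinal.mk ((ℕ → Set ℕ) × (ℕ → ℕ)) = Cardinal.continuum := by
  simp

open Classical in
/-- one step of the recursion -/
noncomputable def nextSeq (G : Fin 3 → Filter ℕ) (q : (ℕ → Set ℕ) × (ℕ → ℕ)) :
    Fin 3 → ℕ → ℕ :=
  if h : (∀ i, (G i).NeBot) ∧ (∀ i, (G i).IsCountablyGenerated) ∧ ∀ i, G i ≤ atTop then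
    (step G h.1 h.2.1 h.2.2 q).choose else fun _ _ => 0

theorem exists_three_of_CH (h : Cardinal.continuum.{u} = Cardinal.aleph 1) :
    ∃ V : Fin 3 → Ultrafilter ℕ, (∀ i, Nonprincipal (V i)) ∧ (∀ i, IsPPoint (V i)) ∧
      ∀ i j, i ≠ j → Sep (V i) (V j) := by
  classical
  have h' : Cardinal.continuum.{0} = Cardinal.aleph 1 := by
    apply Cardinal.lift_injective.{u, 0}
    simpa using h
  let Q := (ℕ → Set ℕ) × (ℕ → ℕ)
  obtain ⟨r, wo, hr⟩ := Cardinal.exists_ord_eq Q
  have hcount : ∀ q : Q, Countable {p : Q // r p q} := by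
    intro q
    have h1 := Cardinal.card_typein_lt q hr
    rw [show Cardinal.mk Q = Cardinal.aleph 1 from mk_req.trans h'] at h1
    rw [Cardinal.lt_aleph_one_iff] at h1
    rw [Ordinal.card_typein] at h1
    exact Cardinal.mk_le_aleph0_iff.mp h1
  have hwf : WellFounded r := wo.wf
  let T : Q → Fin 3 → ℕ → ℕ := hwf.fix fun q ih =>
    nextSeq (fun i => ⨅ o : Option {p : Q // r p q},
      o.elim atTop fun p => map (ih p.1 p.2 i) atTop) q
  let G : Q → Fin 3 → Filter ℕ := fun q i => ⨅ o : Option {p : Q // r p q},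
      o.elim atTop fun p => map (T p.1 i) atTop
  have hT : ∀ q, T q = nextSeq (G q) q := fun q => hwf.fix_eq _ q
  have hGtop : ∀ q i, G q i ≤ atTop := fun q i => iInf_le _ none
  have hGlt : ∀ p q i, r p q → G q i ≤ map (T p i) atTop := fun p q i hpq =>
    iInf_le (fun o : Option {p : Q // r p q} => o.elim atTop fun p => map (T p.1 i) atTop)
      (some ⟨p, hpq⟩)
  have hmain : ∀ q, (∀ i, Tendsto (T q i) atTop (G q i)) ∧
      (∀ i n, q.1 n ∈ map (T q i) atTop ∨ (q.1 n)ᶜ ∈ map (T q i) atTop) ∧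
      ∀ i j, i ≠ j → SepRange q.2 (T q i) (T q j) := by
    intro q
    induction q using hwf.induction with
    | _ q ih =>
    have hc : ∀ i, (G q i).IsCountablyGenerated := by
      intro i
      have := hcount q
      have : ∀ o : Option {p : Q // r p q},
          (o.elim atTop fun p => map (T p.1 i) atTop : Filter ℕ).IsCountablyGenerated := by
        intro o
        cases o with
        | none => show (atTop : Filter ℕ).IsCountablyGenerated; infer_instance
        | some p => show (map (T p.1 i) atTop).IsCountablyGenerated; infer_instance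
      exact Filter.iInf.isCountablyGenerated _
    have hne : ∀ i, (G q i).NeBot := by
      intro i
      apply iInf_neBot_of_directed'
      · intro o o'
        cases o with
        | none =>
          refine ⟨o', ?_, le_rfl⟩
          cases o' with
          | none => exact le_rfl
          | some p => exact ((ih p.1 p.2).1 i).trans (hGtop _ _)
        | some p =>
          cases o' with
          | none => exact ⟨some p, le_rfl, ((ih p.1 p.2).1 i).trans (hGtop _ _)⟩
          | some p' =>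
            rcases trichotomous_of r p.1 p'.1 with hlt | heq | hgt
            · exact ⟨some p', ((ih p'.1 p'.2).1 i).trans (hGlt _ _ _ hlt), le_rfl⟩
            · have : p = p' := Subtype.ext heq
              subst this
              exact ⟨some p, le_rfl, le_rfl⟩
            · exact ⟨some p, le_rfl, ((ih p.1 p.2).1 i).trans (hGlt _ _ _ hgt)⟩
      · intro o
        cases o with
        | none => show (atTop : Filter ℕ).NeBot; infer_instance
        | some p => show (map (T p.1 i) atTop).NeBot; infer_instance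
    have hcond : (∀ i, (G q i).NeBot) ∧ (∀ i, (G q i).IsCountablyGenerated) ∧
        ∀ i, G q i ≤ atTop := ⟨hne, hc, hGtop q⟩
    have h1 : T q = (step (G q) hcond.1 hcond.2.1 hcond.2.2 q).choose := by
      rw [hT, nextSeq, dif_pos hcond]
    rw [h1]
    exact (step (G q) hcond.1 hcond.2.1 hcond.2.2 q).choose_spec
  have hnonempty : Nonempty Q := ⟨⟨fun _ => ∅, fun _ => 0⟩⟩
  have hdir : ∀ i, Directed (· ≥ ·) fun q : Q => map (T q i) atTop := by
    intro i p p'
    rcases trichotomous_of r p p' with hlt | heq | hgt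
    · exact ⟨p', ((hmain p').1 i).trans (hGlt _ _ _ hlt), le_rfl⟩
    · subst heq
      exact ⟨p, le_rfl, le_rfl⟩
    · exact ⟨p, le_rfl, ((hmain p).1 i).trans (hGlt _ _ _ hgt)⟩
  have hNB : ∀ i, (⨅ q : Q, map (T q i) atTop).NeBot := fun i =>
    iInf_neBot_of_directed' (hdir i) fun q => inferInstance
  let V : Fin 3 → Ultrafilter ℕ := fun i =>
    @Ultrafilter.of _ (⨅ q : Q, map (T q i) atTop) (hNB i)
  have hV : ∀ i q, (V i : Filter ℕ) ≤ map (T q i) atTop := fun i q =>
    (@Ultrafilter.of_le _ (⨅ q : Q, map (T q i) atTop) (hNB i)).trans (iInf_le _ q)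
  have hrange : ∀ i q, range (T q i) ∈ V i := fun i q =>
    hV i q (range_mem_map)
  refine ⟨V, ?_, ?_, ?_⟩
  · intro i a ha
    have h1 : ({a} : Set ℕ)ᶜ ∈ (V i : Filter ℕ) := by
      refine (hV i (Classical.choice hnonempty)).trans
        (((hmain _).1 i).trans (hGtop _ _)) ?_
      exact (eventually_ne_atTop a)
    exact Ultrafilter.compl_mem_iff_notMem.mp h1 ha
  · intro i X hX
    let q : Q := ⟨X, fun _ => 0⟩
    refine ⟨range (T q i), hrange i q, fun n => ?_⟩
    have h1 : X n ∈ map (T q i) atTop := by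
      rcases (hmain q).2.1 i n with h2 | h2
      · exact h2
      · exact absurd (hX n) (Ultrafilter.compl_mem_iff_notMem.mp (hV i q h2))
    have h2 : ∀ᶠ m in atTop, T q i m ∈ X n := h1
    obtain ⟨N, hN⟩ := eventually_atTop.mp h2
    refine ((Finset.range N).image (T q i)).finite_toSet.subset ?_
    rintro _ ⟨⟨m, rfl⟩, hm⟩
    rw [Finset.mem_coe, Finset.mem_image]
    refine ⟨m, Finset.mem_range.mpr ?_, rfl⟩
    by_contra hcon
    exact hm (hN m (not_lt.mp hcon))
  · intro i j hij g
    let q : Q := ⟨fun _ => ∅, g⟩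
    exact ⟨range (T q i), hrange i q, range (T q j), hrange j q, (hmain q).2.2 i j hij⟩

end Pool.Agent.Lib.MP_1c3dfa_lc
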