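import Pool.Agent.Lib.MP_1c3dfa_lc.Defs

set_option autoImplicit false

/-!
# Continuity of monotone maps on tuples of members of p-points
-/

namespace Pool.Agent.Lib.MP_1c3dfa_lc

open Set

/-- For a map `g` on tuples of sets, `Gen P g s` is the set of the `n` which are in
`g (s ∪ A)` for all tuples `A` of members of the ultrafilters `P i`. -/
def Gen {ι : Type*} (P : ι → Ultrafilter ℕ) (g : (ι → Set ℕ) → Set ℕ) (s : ι → Set ℕ) : Set ℕ :=
  {n | ∀ A : ι → Set ℕ, (∀ i, A i ∈ P i) → n ∈ g (fun i => s i ∪ A i)}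

theorem Nonprincipal.finite_notMem {U : Ultrafilter ℕ} (h : Nonprincipal U) {s : Set ℕ} (hs : s.Finite) :
    s ∉ U := by
  intro hU
  obtain ⟨x, hx, hx'⟩ := (Ultrafilter.eq_pure_of_finite_mem hs hU)
  apply h x
  rw [hx']
  exact Filter.mem_pure.2 rfl

theorem Nonprincipal.Ici_mem {U : Ultrafilter ℕ} (h : Nonprincipal U) (k : ℕ) : Ici k ∈ U := by
  rw [← compl_Iio]
  exact Ultrafilter.compl_mem_iff_notMem.2 (h.finite_notMem (finite_Iio k))

/-- Intervals determined by a strictly increasing sequence. -/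
theorem exists_intervals {nn : ℕ → ℕ} (h0 : nn 0 = 0) (hs : StrictMono nn) :
    ∃ φ : ℕ → ℕ, ∀ x, nn (φ x) ≤ x ∧ x < nn (φ x + 1) := by
  have : ∀ x, ∃ j, nn j ≤ x ∧ x < nn (j + 1) := by
    intro x
    have hex : ∃ j, x < nn j := ⟨x + 1, lt_of_lt_of_le (Nat.lt_succ_self x) (hs.id_le (x + 1))⟩
    classical
    have h1 := Nat.find_spec hex
    have h2 : Nat.find hex ≠ 0 := by
      intro h
      rw [h, h0] at h1
      exact absurd h1 (Nat.not_lt_zero _)
    obtain ⟨j, hj⟩ := Nat.exists_eq_succ_of_ne_zero h2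
    refine ⟨j, ?_, ?_⟩
    · by_contra hc
      exact Nat.find_min hex (m := j) (by omega) (not_le.1 hc)
    · rw [hj] at h1
      exact h1
  choose φ hφ using this
  exact ⟨φ, hφ⟩

private theorem exists_step {ι : Type*} [Fintype ι] (P : ι → Ultrafilter ℕ)
    (hnp : ∀ i, Nonprincipal (P i)) (g : (ι → Set ℕ) → Set ℕ)
    (hg : ∀ A B : ι → Set ℕ, (∀ i, A i ∈ P i) → (∀ i, B i ∈ P i) → (∀ i, A i ⊆ B i) →
      g A ⊆ g B) (k : ℕ) :
    ∃ A : ι → Set ℕ, (∀ i, A i ∈ P i) ∧ (∀ i, A i ⊆ Ici k) ∧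
      ∀ s : ι → Set ℕ, (∀ i, s i ⊆ Iio k) → ∀ n < k, n ∈ g (fun i => s i ∪ A i) →
        n ∈ Gen P g s := by
  classical
  have h1 : ∀ (s : ι → Set ℕ) (n : ℕ), ∃ B : ι → Set ℕ, (∀ i, B i ∈ P i) ∧
      (n ∈ g (fun i => s i ∪ B i) → n ∈ Gen P g s) := by
    intro s n
    by_cases h : n ∈ Gen P g s
    · exact ⟨fun _ => univ, fun i => Filter.univ_mem, fun _ => h⟩
    · have h' := h
      simp only [Gen, mem_ofPred_eq, not_forall] at h'
      obtain ⟨B, hB, hn⟩ := h'
      exact ⟨B, hB, fun h2 => absurd h2 hn⟩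
  choose B hB1 hB2 using h1
  have hfin : {s : ι → Set ℕ | ∀ i, s i ⊆ Iio k}.Finite := by
    have : {s : ι → Set ℕ | ∀ i, s i ∈ 𝒫 (Iio k)}.Finite :=
      Set.Finite.pi' (fun i => (finite_Iio k).finite_subsets)
    exact this
  refine ⟨fun i => Ici k ∩ ⋂ s ∈ {s : ι → Set ℕ | ∀ i, s i ⊆ Iio k}, ⋂ n ∈ Iio k, B s n i,
    ?_, ?_, ?_⟩
  · intro i
    refine Filter.inter_mem ((hnp i).Ici_mem k) ?_
    rw [Filter.biInter_mem hfin]
    intro s _
    rw [Filter.biInter_mem (finite_Iio k)]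
    intro n _
    exact hB1 s n i
  · intro i
    exact inter_subset_left
  · intro s hs n hn hng
    refine hB2 s n (hg _ _ ?_ ?_ ?_ hng)
    · intro i
      refine Filter.mem_of_superset ?_ subset_union_right
      refine Filter.inter_mem ((hnp i).Ici_mem k) ?_
      rw [Filter.biInter_mem hfin]
      intro s _
      rw [Filter.biInter_mem (finite_Iio k)]
      intro n _
      exact hB1 s n i
    · intro i
      exact Filter.mem_of_superset (hB1 s n i) subset_union_right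
    · intro i
      refine union_subset_union_right _ ?_
      intro x hx
      have h3 := hx.2
      simp only [mem_iInter] at h3
      exact h3 s hs n hn

theorem exists_cont {ι : Type*} [Fintype ι] (P : ι → Ultrafilter ℕ)
    (hnp : ∀ i, Nonprincipal (P i)) (hP : ∀ i, IsPPoint (P i)) (g : (ι → Set ℕ) → Set ℕ)
    (hg : ∀ A B : ι → Set ℕ, (∀ i, A i ∈ P i) → (∀ i, B i ∈ P i) → (∀ i, A i ⊆ B i) →
      g A ⊆ g B) :
    ∃ (T : ι → Set ℕ) (K : Set ℕ), (∀ i, T i ∈ P i) ∧ K.Infinite ∧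
      ∀ k ∈ K, ∀ A : ι → Set ℕ, (∀ i, A i ∈ P i) → (∀ i, A i ⊆ T i) →
        ∀ n < k, n ∈ g A → n ∈ Gen P g (fun i => A i ∩ Iio k) := by
  classical
  choose A hA1 hA2 hA3 using fun k => exists_step P hnp g hg k
  choose Y hY1 hY2 using fun i => hP i (fun k => A k i) (fun k => hA1 k i)
  have hh : ∀ k, ∃ m, k < m ∧ ∀ i, Y i \ A k i ⊆ Iio m := by
    intro k
    have h1 : ∀ i, ∃ m, Y i \ A k i ⊆ Iio m := by
      intro i
      obtain ⟨m, hm⟩ := (hY2 i k).bddAbove
      exact ⟨m + 1, fun x hx => Nat.lt_succ_of_le (hm hx)⟩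
    choose m hm using h1
    refine ⟨k + 1 + ∑ i, m i, by omega, ?_⟩
    intro i x hx
    have h2 := hm i hx
    have h3 : m i ≤ ∑ i, m i := Finset.single_le_sum (fun _ _ => Nat.zero_le _) (Finset.mem_univ i)
    simp only [mem_Iio] at h2 ⊢
    omega
  choose h hh1 hh2 using hh
  obtain ⟨nn, hnn⟩ : ∃ nn : ℕ → ℕ, nn = fun j => Nat.rec 0 (fun _ y => h y) j := ⟨_, rfl⟩
  have hn0 : nn 0 = 0 := by subst hnn; rfl
  have hnS : ∀ j, nn (j + 1) = h (nn j) := by intro j; subst hnn; rfl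
  have hsm : StrictMono nn := strictMono_nat_of_lt_succ (fun j => by rw [hnS]; exact hh1 _)
  obtain ⟨φ, hφ⟩ := exists_intervals hn0 hsm
  obtain ⟨N, hN⟩ : ∃ N, N = Fintype.card ι + 1 := ⟨_, rfl⟩
  have hNpos : 0 < N := by omega
  have hc : ∀ i, ∃ c < N, {x | φ x % N = c} ∈ P i := by
    intro i
    have h1 : (⋃ c ∈ Iio N, {x | φ x % N = c}) ∈ P i := by
      have h0 : (⋃ c ∈ Iio N, {x | φ x % N = c}) = univ := by
        refine eq_univ_of_forall (fun x => ?_)
        exact mem_biUnion (mem_Iio.2 (Nat.mod_lt (φ x) hNpos)) rfl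
      rw [h0]
      exact Filter.univ_mem
    rw [Ultrafilter.finite_biUnion_mem_iff (finite_Iio N)] at h1
    obtain ⟨c, hc, hc'⟩ := h1
    exact ⟨c, hc, hc'⟩
  choose c hc1 hc2 using hc
  obtain ⟨c0, hc0, hc0'⟩ : ∃ c0 < N, ∀ i, c i ≠ c0 := by
    by_contra hcon
    push Not at hcon
    have h1 : Finset.range N ⊆ Finset.univ.image c := by
      intro x hx
      obtain ⟨i, hi⟩ := hcon x (Finset.mem_range.1 hx)
      exact Finset.mem_image.2 ⟨i, Finset.mem_univ _, hi⟩
    have h2 := Finset.card_le_card h1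
    have h3 : (Finset.univ.image c).card ≤ Fintype.card ι := Finset.card_image_le
    rw [Finset.card_range] at h2
    omega
  refine ⟨fun i => Y i ∩ {x | φ x % N = c i}, {k | ∃ j, j % N = c0 ∧ k = nn j}, ?_, ?_, ?_⟩
  · intro i
    exact Filter.inter_mem (hY1 i) (hc2 i)
  · have h1 : Set.InjOn nn {j | j % N = c0} := hsm.injective.injOn
    have h2 : {j : ℕ | j % N = c0}.Infinite := by
      refine Set.infinite_of_injective_forall_mem (f := fun m : ℕ => N * m + c0) ?_ ?_
      · intro a b hab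
        simp only at hab
        exact Nat.eq_of_mul_eq_mul_left hNpos (by omega)
      · intro m
        simp only [mem_ofPred_eq]
        rw [Nat.mul_add_mod]
        exact Nat.mod_eq_of_lt hc0
    refine (h2.image h1).mono ?_
    rintro _ ⟨j, hj, rfl⟩
    exact ⟨j, hj, rfl⟩
  · rintro _ ⟨j, hj, rfl⟩ B hB hBT n hn hnB
    refine hA3 (nn j) _ (fun i => inter_subset_right) n hn ?_
    refine hg _ _ hB ?_ ?_ hnB
    · intro i
      exact Filter.mem_of_superset (hA1 (nn j) i) subset_union_right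
    · intro i x hx
      by_cases hxk : x < nn j
      · exact Or.inl ⟨hx, hxk⟩
      · right
        by_contra hxA
        have h1 := hBT i hx
        have h2 : x < h (nn j) := hh2 (nn j) i ⟨h1.1, hxA⟩
        rw [← hnS] at h2
        have h3 := hφ x
        have h4 : φ x = j := by
          have h5 : j < φ x + 1 := hsm.lt_iff_lt.1 (lt_of_le_of_lt (not_lt.1 hxk) h3.2)
          have h6 : φ x < j + 1 := hsm.lt_iff_lt.1 (lt_of_le_of_lt h3.1 h2)
          omega
        have h5 := h1.2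
        simp only [mem_ofPred_eq] at h5
        rw [h4, hj] at h5
        exact hc0' i h5.symm

end Pool.Agent.Lib.MP_1c3dfa_lc
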