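import Mathlib

set_option autoImplicit false

/-!
# Definitions for the pointwise (continuous) version of MP_1c3dfa_lc
-/

namespace Pool.Agent.Lib.MP_1c3dfa_lc

open Set

/-- An ultrafilter is nonprincipal if it contains no singleton. -/
def Nonprincipal {α : Type*} (U : Ultrafilter α) : Prop := ∀ a : α, ({a} : Set α) ∉ U

/-- `C` is a cofinal subset of the directed set `(U, ⊇)`. -/
def IsCofinalIn {α : Type*} (U : Ultrafilter α) (C : Set (Set α)) : Prop :=
  (∀ X ∈ C, X ∈ U) ∧ ∀ X ∈ U, ∃ Y ∈ C, Y ⊆ X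

/-- `f` (restricted to `U`) is a cofinal map from `(U, ⊇)` to `(V, ⊇)`: it maps `U` to `V` and
sends cofinal subsets of `U` to cofinal subsets of `V`. -/
def IsCofinalMap {α β : Type*} (U : Ultrafilter α) (V : Ultrafilter β) (f : Set α → Set β) :
    Prop :=
  (∀ X ∈ U, f X ∈ V) ∧ ∀ C : Set (Set α), IsCofinalIn U C → IsCofinalIn V (f '' C)

/-- `V ≤_T U`: there is a cofinal map from `U` to `V`. -/
def TukeyLE {α β : Type*} (V : Ultrafilter β) (U : Ultrafilter α) : Prop :=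
  ∃ f : Set α → Set β, IsCofinalMap U V f

/-- `f` is monotone on the family `D`: if `X ⊇ Y` are in `D` then `f X ⊇ f Y`. -/
def IsMonotoneOn {α β : Type*} (f : Set α → Set β) (D : Set (Set α)) : Prop :=
  ∀ X ∈ D, ∀ Y ∈ D, Y ⊆ X → f Y ⊆ f X

/-- For a string `s`, the set `d s` of positions where `s` takes the value `1`. -/
def d (s : List Bool) : Set ℕ := {i | s[i]? = some true}

/-- `a ⊑ X`: the set `a` is an initial segment of `X` in its increasing enumeration. -/
def InitSeg (a X : Set ℕ) : Prop := a ⊆ X ∧ ∀ x ∈ X, ∀ y ∈ a, x ≤ y → x ∈ a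

/-- The strings which approximate some member of the family `F`. -/
def approx (F : Set (Set ℕ)) : Set (List Bool) :=
  {s | ∃ X ∈ F, d s = X ∩ Iio s.length}

/-- `f` restricted to `F` is pointwise basic: there is a map `fhat` on the strings approximating
members of `F` which is initial segment preserving, monotone, generates `f` on `F`, and along each
`X ∈ F` gives arbitrarily long strings. -/
def IsPointwiseBasicOn (f : Set ℕ → Set ℕ) (F : Set (Set ℕ)) : Prop :=
  IsMonotoneOn f F ∧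
  ∃ fhat : List Bool → List Bool,
    (∀ s ∈ approx F, ∀ s' ∈ approx F, s <+: s' → fhat s <+: fhat s') ∧
    (∀ s ∈ approx F, ∀ t ∈ approx F, d s ⊆ d t → d (fhat s) ⊆ d (fhat t)) ∧
    (∀ X ∈ F, ∀ m, ∃ s ∈ approx F, d s = X ∩ Iio s.length ∧ m ≤ (fhat s).length) ∧
    (∀ X ∈ F, f X = ⋃ s ∈ {s ∈ approx F | InitSeg (d s) X}, d (fhat s))

/-- `U` has pointwise basic Tukey reductions: every monotone cofinal map from `U` to a
nonprincipal ultrafilter `V` on `ω` is pointwise basic on some cofinal subset of `U`. -/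
def HasPointwiseBasicTukeyReductions (U : Ultrafilter ℕ) : Prop :=
  ∀ V : Ultrafilter ℕ, Nonprincipal V → ∀ f : Set ℕ → Set ℕ,
    IsMonotoneOn f {X | X ∈ U} → IsCofinalMap U V f →
      ∃ F : Set (Set ℕ), IsCofinalIn U F ∧ IsPointwiseBasicOn f F

/-- `U` is a p-point: every countable family of sets of `U` has a pseudo-intersection in `U`. -/
def IsPPoint (U : Ultrafilter ℕ) : Prop :=
  ∀ X : ℕ → Set ℕ, (∀ n, X n ∈ U) → ∃ Y ∈ U, ∀ n, (Y \ X n).Finite

/-- `p` and `q` are nearly coherent: some finite-to-one map sends them to the same ultrafilter. -/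
def NearlyCoherent (p q : Ultrafilter ℕ) : Prop :=
  ∃ g : ℕ → ℕ, (∀ n, (g ⁻¹' {n}).Finite) ∧ p.map g = q.map g

/-- The finite nonempty subsets of `ω`. -/
abbrev FIN : Type := {s : Finset ℕ // s.Nonempty}

/-- `X` is a block sequence: `max (X n) < min (X (n+1))`. -/
def IsBlockSeq (X : ℕ → FIN) : Prop := ∀ n, ∀ a ∈ (X n).1, ∀ b ∈ (X (n + 1)).1, a < b

/-- The set of finite nonempty unions of members of the sequence `X`. -/
def FU (X : ℕ → FIN) : Set FIN :=
  {s | ∃ I : Finset ℕ, I.Nonempty ∧ s.1 = I.biUnion fun i => (X i).1}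

/-- An ultrafilter on `FIN` is ordered-union if it has a base of sets `FU X`, `X` a block
sequence. -/
def IsOrderedUnion (W : Ultrafilter FIN) : Prop :=
  ∀ A ∈ W, ∃ X : ℕ → FIN, IsBlockSeq X ∧ FU X ∈ W ∧ FU X ⊆ A

/-- Stability of an ordered-union ultrafilter. -/
def IsStable (W : Ultrafilter FIN) : Prop :=
  ∀ X : ℕ → ℕ → FIN, (∀ n, IsBlockSeq (X n)) → (∀ n, FU (X n) ∈ W) →
    ∃ Y : ℕ → FIN, IsBlockSeq Y ∧ FU Y ∈ W ∧ ∀ n, ∃ m, FU (fun i => Y (m + i)) ⊆ FU (X n)

/-- A bijection between triples of natural numbers and natural numbers. -/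
def code (a b c : ℕ) : ℕ := Nat.pair (Nat.pair a b) c

/-- The product of three ultrafilters: a set `X` belongs to it iff
`∀ᶠ a in p, ∀ᶠ b in q, ∀ᶠ c in r, code a b c ∈ X`. -/
def fubini3 (p q r : Ultrafilter ℕ) : Ultrafilter ℕ :=
  p.bind fun a => q.bind fun b => r.map fun c => code a b c

/-! ### Auxiliary notions used in the proof -/

/-- A globally monotone map witnessing `V ≤_T U`. -/
structure TMap {α β : Type*} (U : Ultrafilter α) (V : Ultrafilter β) (g : Set α → Set β) :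
    Prop where
  mono : ∀ X Y : Set α, X ⊆ Y → g X ⊆ g Y
  mem : ∀ X ∈ U, g X ∈ V
  cof : ∀ B ∈ V, ∃ X ∈ U, g X ⊆ B

/-- `p` and `q` can be separated by arbitrarily fast growing functions. -/
def Sep (p q : Ultrafilter ℕ) : Prop :=
  ∀ g : ℕ → ℕ, ∃ A ∈ p, ∃ B ∈ q, ∀ a ∈ A, ∀ b ∈ B, (a ≤ b → g a < b) ∧ (b ≤ a → g b < a)

/-- `s < t` for finite sets. -/
def Lt (s t : Finset ℕ) : Prop := ∀ a ∈ s, ∀ b ∈ t, a < b

/-- The minimum of a finite set (`0` for the empty set). -/
noncomputable def mn (s : Finset ℕ) : ℕ := sInf (s : Set ℕ)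

/-- The maximum of a finite set (`0` for the empty set). -/
def mx (s : Finset ℕ) : ℕ := s.sup id

/-- Block sequences of finite sets. -/
structure Block (X : ℕ → Finset ℕ) : Prop where
  ne : ∀ n, (X n).Nonempty
  lt : ∀ n, Lt (X n) (X (n + 1))

/-- Finite nonempty unions, as a set of finite sets. -/
def FUs (X : ℕ → Finset ℕ) : Set (Finset ℕ) :=
  {s | ∃ I : Finset ℕ, I.Nonempty ∧ s = I.biUnion X}

/-- Ordered-union ultrafilters, seen as ultrafilters on `Finset ℕ`. -/
def OU (W : Ultrafilter (Finset ℕ)) : Prop :=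
  ∀ A ∈ W, ∃ X : ℕ → Finset ℕ, Block X ∧ FUs X ∈ W ∧ FUs X ⊆ A

/-- Stability, for ultrafilters on `Finset ℕ`. -/
def Stable (W : Ultrafilter (Finset ℕ)) : Prop :=
  ∀ X : ℕ → ℕ → Finset ℕ, (∀ n, Block (X n)) → (∀ n, FUs (X n) ∈ W) →
    ∃ Y : ℕ → Finset ℕ, Block Y ∧ FUs Y ∈ W ∧ ∀ n, ∃ m, FUs (fun i => Y (m + i)) ⊆ FUs (X n)

end Pool.Agent.Lib.MP_1c3dfa_lc
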