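import Pool.Agent.Lib.MP_1c3dfa_lc.Defs

set_option autoImplicit false

/-! # M1: Tukey reductions, monotone witnesses, splitting -/

namespace Pool.Agent.Lib.MP_1c3dfa_lc

open Set

theorem exists_small {α β : Type*} {U : Ultrafilter α} {V : Ultrafilter β}
    {f : Set α → Set β} (hf : IsCofinalMap U V f) {B : Set β} (hB : B ∈ V) :
    ∃ X ∈ U, ∀ Y ∈ U, Y ⊆ X → f Y ⊆ B := by
  by_contra hc
  push Not at hc
  have hC : IsCofinalIn U {Y | Y ∈ U ∧ ¬ f Y ⊆ B} := by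
    refine ⟨fun X hX => hX.1, ?_⟩
    intro X hX
    obtain ⟨Y, hY, hYX, hfY⟩ := hc X hX
    exact ⟨Y, ⟨hY, hfY⟩, hYX⟩
  obtain ⟨Z, ⟨Y, hY, rfl⟩, hZ⟩ := (hf.2 _ hC).2 B hB
  exact hY.2 hZ

theorem exists_tMap {α β : Type*} {U : Ultrafilter α} {V : Ultrafilter β}
    (h : TukeyLE V U) : ∃ g : Set α → Set β, TMap U V g := by
  obtain ⟨f, hf⟩ := h
  refine ⟨fun X => ⋃ Y ∈ {Y | Y ∈ U ∧ Y ⊆ X}, f Y, ?_, ?_, ?_⟩
  · intro X Y hXY
    apply biUnion_subset_biUnion_left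
    rintro Z ⟨h1, h2⟩
    exact ⟨h1, h2.trans hXY⟩
  · intro X hX
    refine Filter.mem_of_superset (hf.1 X hX) ?_
    exact subset_biUnion_of_mem (u := fun Y => f Y) (show X ∈ {Y | Y ∈ U ∧ Y ⊆ X} from ⟨hX, Subset.rfl⟩)
  · intro B hB
    obtain ⟨X, hX, h⟩ := exists_small hf hB
    refine ⟨X, hX, ?_⟩
    simp only [iUnion_subset_iff]
    rintro Y ⟨h1, h2⟩
    exact h Y h1 h2

theorem TMap.isCofinalMap {α β : Type*} {U : Ultrafilter α} {V : Ultrafilter β}
    {g : Set α → Set β} (h : TMap U V g) : IsCofinalMap U V g := by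
  refine ⟨h.mem, ?_⟩
  rintro C ⟨hC1, hC2⟩
  refine ⟨?_, ?_⟩
  · rintro _ ⟨X, hX, rfl⟩
    exact h.mem X (hC1 X hX)
  · intro B hB
    obtain ⟨X, hX, hXB⟩ := h.cof B hB
    obtain ⟨Y, hY, hYX⟩ := hC2 X hX
    exact ⟨g Y, ⟨Y, hY, rfl⟩, (h.mono _ _ hYX).trans hXB⟩

theorem TMap.tukeyLE {α β : Type*} {U : Ultrafilter α} {V : Ultrafilter β}
    {g : Set α → Set β} (h : TMap U V g) : TukeyLE V U := ⟨g, h.isCofinalMap⟩

theorem TukeyLE.trans {α β γ : Type*} {U : Ultrafilter α} {V : Ultrafilter β}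
    {W : Ultrafilter γ} (h1 : TukeyLE W V) (h2 : TukeyLE V U) : TukeyLE W U := by
  obtain ⟨f, hf1, hf2⟩ := h1
  obtain ⟨g, hg1, hg2⟩ := h2
  refine ⟨fun X => f (g X), fun X hX => hf1 _ (hg1 X hX), ?_⟩
  intro C hC
  have := hf2 _ (hg2 _ hC)
  rwa [image_image] at this

theorem tMap_image {α β : Type*} (U : Ultrafilter α) (φ : α → β) :
    TMap U (U.map φ) (fun X => φ '' X) := by
  refine ⟨fun X Y h => image_mono h, ?_, ?_⟩
  · intro X hX
    rw [Ultrafilter.mem_map]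
    exact Filter.mem_of_superset hX (subset_preimage_image _ _)
  · intro B hB
    rw [Ultrafilter.mem_map] at hB
    exact ⟨_, hB, image_preimage_subset _ _⟩

theorem tukeyLE_map {α β : Type*} (U : Ultrafilter α) (φ : α → β) :
    TukeyLE (U.map φ) U := (tMap_image U φ).tukeyLE

/-- For countably many sets there is a member of the ultrafilter which contains none of the
infinite ones. -/
theorem exists_not_superset (V : Ultrafilter ℕ) {ι : Type*} [Countable ι] (F : ι → Set ℕ) :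
    ∃ E ∈ V, ∀ j, (F j).Infinite → ¬ F j ⊆ E := by
  classical
  -- enumerate the infinite sets
  by_cases hne : Nonempty {j // (F j).Infinite}
  swap
  · refine ⟨univ, Filter.univ_mem, ?_⟩
    intro j hj
    exact absurd ⟨⟨j, hj⟩⟩ hne
  obtain ⟨e, he⟩ := exists_surjective_nat {j // (F j).Infinite}
  -- `x n`, `y n` strictly increasing, `x n, y n ∈ F (e n)`
  have step : ∀ (n m : ℕ), ∃ z : ℕ × ℕ, m < z.1 ∧ z.1 < z.2 ∧ z.1 ∈ F (e n).1 ∧ z.2 ∈ F (e n).1 := by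
    intro n m
    obtain ⟨a, ha, hma⟩ := (e n).2.exists_gt m
    obtain ⟨b, hb, hab⟩ := (e n).2.exists_gt a
    exact ⟨(a, b), hma, hab, ha, hb⟩
  choose z hz1 hz2 hz3 hz4 using step
  let w : ℕ → ℕ × ℕ := fun n => Nat.rec (z 0 0) (fun k v => z (k + 1) v.2) n
  have hw0 : w 0 = z 0 0 := rfl
  have hws : ∀ n, w (n + 1) = z (n + 1) (w n).2 := fun n => rfl
  have hw1 : ∀ n, (w n).1 < (w n).2 := by
    intro n
    cases n with
    | zero => exact hz2 _ _
    | succ n => rw [hws]; exact hz2 _ _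
  have hw2 : ∀ n, (w n).2 < (w (n + 1)).1 := by
    intro n
    rw [hws]; exact hz1 _ _
  have hwF : ∀ n, (w n).1 ∈ F (e n).1 ∧ (w n).2 ∈ F (e n).1 := by
    intro n
    cases n with
    | zero => exact ⟨hz3 _ _, hz4 _ _⟩
    | succ n => rw [hws]; exact ⟨hz3 _ _, hz4 _ _⟩
  have hmono : StrictMono fun n => (w n).1 := strictMono_nat_of_lt_succ fun n => (hw1 n).trans (hw2 n)
  have hdis : ∀ m n, (w m).1 ≠ (w n).2 := by
    intro m n h
    rcases lt_trichotomy m n with hmn | hmn | hmn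
    · have h1 := hmono hmn
      have h2 := hw1 n
      simp only at h1
      omega
    · subst hmn
      have := hw1 m
      omega
    · have h1 : (w (n + 1)).1 ≤ (w m).1 := hmono.monotone hmn
      have h2 := hw2 n
      omega
  let S : Set ℕ := range fun n => (w n).1
  rcases V.mem_or_compl_mem S with hS | hS
  · refine ⟨S, hS, ?_⟩
    intro j hj hsub
    obtain ⟨n, hn⟩ := he ⟨j, hj⟩
    have h1 := (hwF n).2
    rw [hn] at h1
    obtain ⟨m, hm⟩ := hsub h1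
    exact hdis m n hm
  · refine ⟨Sᶜ, hS, ?_⟩
    intro j hj hsub
    obtain ⟨n, hn⟩ := he ⟨j, hj⟩
    have h1 := (hwF n).1
    rw [hn] at h1
    exact hsub h1 ⟨n, rfl⟩

end Pool.Agent.Lib.MP_1c3dfa_lc
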