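import Pool.Agent.Lib.MP_1c3dfa_lc.Basic

set_option autoImplicit false

/-! # M5: ordered-union ultrafilters: separation and diagonalisation -/

namespace Pool.Agent.Lib.MP_1c3dfa_lc

open Set

theorem Block.le_mem {X : ℕ → Finset ℕ} (h : Block X) (j : ℕ) : ∀ a ∈ X j, j ≤ a := by
  induction j with
  | zero => intro a _; exact Nat.zero_le a
  | succ n ih =>
    intro a ha
    obtain ⟨c, hc⟩ := h.ne n
    have h1 := ih c hc
    have h2 := h.lt n c hc a ha
    omega

theorem mem_FUs_self (X : ℕ → Finset ℕ) (i : ℕ) : X i ∈ FUs X :=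
  ⟨{i}, Finset.singleton_nonempty i, by simp⟩

/-- tails of members of an ordered-union ultrafilter. -/
theorem ou_min_gt {W : Ultrafilter (Finset ℕ)} (hW : OU W) (m : ℕ) :
    {t : Finset ℕ | t.Nonempty ∧ ∀ a ∈ t, m < a} ∈ W := by
  rcases W.mem_or_compl_mem {t : Finset ℕ | t.Nonempty ∧ ∀ a ∈ t, m < a} with h | h
  · exact h
  · exfalso
    obtain ⟨Y, hY, _, hY2⟩ := hW _ h
    refine hY2 (mem_FUs_self Y (m + 1)) ⟨hY.ne _, ?_⟩
    intro a ha
    have := hY.le_mem _ a ha
    omega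

/-- The jump set of `s`. -/
noncomputable def jumps (G : ℕ → ℕ) (s : Finset ℕ) : Finset ℕ := by
  classical
  exact s.filter fun a => (∃ b ∈ s, a < b) ∧ ∀ c ∈ s, a < c → G a < c

theorem mem_jumps {G : ℕ → ℕ} {s : Finset ℕ} {a : ℕ} :
    a ∈ jumps G s ↔ a ∈ s ∧ (∃ b ∈ s, a < b) ∧ ∀ c ∈ s, a < c → G a < c := by
  classical
  unfold jumps
  rw [Finset.mem_filter]

theorem card_jumps_of_lt {G : ℕ → ℕ} {s t : Finset ℕ} (hs : s.Nonempty) (ht : t.Nonempty)
    (h : Lt s t) (hG : G (mx s) < mn t) :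
    (jumps G (s ∪ t)).card = (jumps G s).card + (jumps G t).card + 1 := by
  classical
  have key : jumps G (s ∪ t) = insert (mx s) (jumps G s ∪ jumps G t) := by
    ext a
    simp only [Finset.mem_insert, Finset.mem_union, mem_jumps]
    constructor
    · rintro ⟨ha | ha, ⟨b, hb, hab⟩, hc⟩
      · by_cases hmx : a = mx s
        · exact Or.inl hmx
        · refine Or.inr (Or.inl ⟨ha, ⟨mx s, mx_mem hs, lt_of_le_of_ne (le_mx ha) hmx⟩, ?_⟩)
          intro c hcs hac
          exact hc c (Or.inl hcs) hac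
      · refine Or.inr (Or.inr ⟨ha, ⟨b, ?_, hab⟩, ?_⟩)
        · rcases hb with hb | hb
          · have := h b hb a ha
            omega
          · exact hb
        · intro c hct hac
          exact hc c (Or.inr hct) hac
    · rintro (rfl | ⟨ha, ⟨b, hb, hab⟩, hc⟩ | ⟨ha, ⟨b, hb, hab⟩, hc⟩)
      · refine ⟨Or.inl (mx_mem hs), ⟨mn t, Or.inr (mn_mem ht), h _ (mx_mem hs) _ (mn_mem ht)⟩, ?_⟩
        rintro c (hcs | hct) hac
        · have := le_mx hcs
          omega
        · exact hG.trans_le (mn_le hct)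
      · refine ⟨Or.inl ha, ⟨b, Or.inl hb, hab⟩, ?_⟩
        rintro c (hcs | hct) hac
        · exact hc c hcs hac
        · exact (hc b hb hab).trans (h b hb c hct)
      · refine ⟨Or.inr ha, ⟨b, Or.inr hb, hab⟩, ?_⟩
        rintro c (hcs | hct) hac
        · have := h c hcs a ha
          omega
        · exact hc c hct hac
  have hdis : Disjoint (jumps G s) (jumps G t) := by
    rw [Finset.disjoint_left]
    intro a ha hb
    have := h a (mem_jumps.1 ha).1 a (mem_jumps.1 hb).1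
    omega
  have hnot : mx s ∉ jumps G s ∪ jumps G t := by
    rw [Finset.mem_union, not_or]
    constructor
    · intro hm
      obtain ⟨_, ⟨b, hb, hab⟩, _⟩ := mem_jumps.1 hm
      have := le_mx hb
      omega
    · intro hm
      have := h _ (mx_mem hs) _ (mem_jumps.1 hm).1
      omega
  rw [key, Finset.card_insert_of_notMem hnot, Finset.card_union_of_disjoint hdis]

theorem card_jumps_of_ge {G : ℕ → ℕ} {s t : Finset ℕ} (hs : s.Nonempty) (ht : t.Nonempty)
    (h : Lt s t) (hG : ¬ G (mx s) < mn t) :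
    (jumps G (s ∪ t)).card = (jumps G s).card + (jumps G t).card := by
  classical
  have key : jumps G (s ∪ t) = jumps G s ∪ jumps G t := by
    ext a
    simp only [Finset.mem_union, mem_jumps]
    constructor
    · rintro ⟨ha | ha, ⟨b, hb, hab⟩, hc⟩
      · by_cases hmx : a = mx s
        · exfalso
          subst hmx
          exact hG (hc (mn t) (Or.inr (mn_mem ht)) (h _ ha _ (mn_mem ht)))
        · refine Or.inl ⟨ha, ⟨mx s, mx_mem hs, lt_of_le_of_ne (le_mx ha) hmx⟩, ?_⟩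
          intro c hcs hac
          exact hc c (Or.inl hcs) hac
      · refine Or.inr ⟨ha, ⟨b, ?_, hab⟩, ?_⟩
        · rcases hb with hb | hb
          · have := h b hb a ha
            omega
          · exact hb
        · intro c hct hac
          exact hc c (Or.inr hct) hac
    · rintro (⟨ha, ⟨b, hb, hab⟩, hc⟩ | ⟨ha, ⟨b, hb, hab⟩, hc⟩)
      · refine ⟨Or.inl ha, ⟨b, Or.inl hb, hab⟩, ?_⟩
        rintro c (hcs | hct) hac
        · exact hc c hcs hac
        · exact (hc b hb hab).trans (h b hb c hct)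
      · refine ⟨Or.inr ha, ⟨b, Or.inr hb, hab⟩, ?_⟩
        rintro c (hcs | hct) hac
        · have := h c hcs a ha
          omega
        · exact hc c hct hac
  have hdis : Disjoint (jumps G s) (jumps G t) := by
    rw [Finset.disjoint_left]
    intro a ha hb
    have := h a (mem_jumps.1 ha).1 a (mem_jumps.1 hb).1
    omega
  rw [key, Finset.card_union_of_disjoint hdis]

theorem ou_sep {W : Ultrafilter (Finset ℕ)} (hW : OU W) (G : ℕ → ℕ)
    {D : Set (Finset ℕ)} (hD : D ∈ W) :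
    ∃ X : ℕ → Finset ℕ, Block X ∧ FUs X ∈ W ∧ FUs X ⊆ D ∧
      ∀ s ∈ FUs X, ∀ t ∈ FUs X, Lt s t → G (mx s) < mn t := by
  rcases W.mem_or_compl_mem {s : Finset ℕ | Even (jumps G s).card} with h | h
  · exfalso
    obtain ⟨X, hX, _, hX2⟩ := hW _ h
    have hn : 0 < G (mx (X 0)) + 1 := Nat.succ_pos _
    have hlt := hX.lt_of_lt hn
    have hge : G (mx (X 0)) < mn (X (G (mx (X 0)) + 1)) := by
      have := hX.le_mem _ _ (mn_mem (hX.ne (G (mx (X 0)) + 1)))
      omega
    have h0 : Even (jumps G (X 0)).card := hX2 (mem_FUs_self X 0)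
    have h1 : Even (jumps G (X (G (mx (X 0)) + 1))).card := hX2 (mem_FUs_self X _)
    have h2 : Even (jumps G (X 0 ∪ X (G (mx (X 0)) + 1))).card :=
      hX2 (FUs_union (mem_FUs_self X 0) (mem_FUs_self X _))
    rw [card_jumps_of_lt (hX.ne _) (hX.ne _) hlt hge] at h2
    have h3 := (h0.add h1)
    rw [Nat.even_add_one] at h2
    exact h2 h3
  · obtain ⟨X, hX, hXW, hX2⟩ := hW _ (Filter.inter_mem hD h)
    refine ⟨X, hX, hXW, fun s hs => (hX2 hs).1, ?_⟩
    intro s hs t ht hst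
    by_contra hcon
    have h0 : ¬ Even (jumps G s).card := (hX2 hs).2
    have h1 : ¬ Even (jumps G t).card := (hX2 ht).2
    have h2 : ¬ Even (jumps G (s ∪ t)).card := (hX2 (FUs_union hs ht)).2
    rw [card_jumps_of_ge (hX.nonempty_of_mem hs) (hX.nonempty_of_mem ht) hst hcon] at h2
    rw [Nat.not_even_iff_odd] at h0 h1
    exact h2 (h0.add_odd h1)

theorem ou_diag {W : Ultrafilter (Finset ℕ)} (hW : OU W) (hS : Stable W) (G : ℕ → ℕ)
    {C : Set (Finset ℕ)} (hC : C ∈ W) (A : ℕ → Set (Finset ℕ)) (hA : ∀ k, A k ∈ W) :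
    ∃ (X : ℕ → Finset ℕ) (κ : ℕ → ℕ), Block X ∧ FUs X ∈ W ∧ FUs X ⊆ C ∧ Monotone κ ∧
      (∀ k, ∃ m, k ≤ κ m) ∧
      (∀ t ∈ FUs X, ∀ k ≤ κ (mn t), t ∈ A k) ∧
      ∀ s ∈ FUs X, ∀ t ∈ FUs X, Lt s t → G (mx s) < κ (mn t) := by
  classical
  have hY : ∀ k, ∃ Y : ℕ → Finset ℕ, Block Y ∧ FUs Y ∈ W ∧ FUs Y ⊆ A k := fun k => hW _ (hA k)
  choose Z hZ1 hZ2 hZ3 using hY
  obtain ⟨Y, hYb, hYW, hYm⟩ := hS Z hZ1 hZ2
  choose m hm using hYm
  -- bound
  have hb : ∀ k, ∀ t ∈ FUs Y, mx (Y (m k)) < mn t → t ∈ A k := by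
    rintro k t ⟨I, hI, rfl⟩ hlt
    apply hZ3 k
    apply hm k
    have hge : ∀ i ∈ I, m k ≤ i := by
      intro i hi
      by_contra hc
      push Not at hc
      obtain ⟨a, ha⟩ := hYb.ne i
      have h1 : mn (I.biUnion Y) ≤ a := mn_le (Finset.mem_biUnion.2 ⟨i, hi, ha⟩)
      have h2 := hYb.lt_of_lt hc a ha _ (mx_mem (hYb.ne (m k)))
      omega
    refine ⟨I.image fun i => i - m k, hI.image _, ?_⟩
    ext a
    simp only [Finset.mem_biUnion, Finset.mem_image]
    constructor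
    · rintro ⟨i, hi, ha⟩
      refine ⟨i - m k, ⟨i, hi, rfl⟩, ?_⟩
      have := hge i hi
      rw [Nat.add_sub_cancel' this]
      exact ha
    · rintro ⟨_, ⟨i, hi, rfl⟩, ha⟩
      refine ⟨i, hi, ?_⟩
      have := hge i hi
      rwa [Nat.add_sub_cancel' this] at ha
  let h : ℕ → ℕ := fun k => k + ∑ j ∈ Finset.range (k + 1), (mx (Y (m j)) + 1)
  have hh : ∀ k, ∀ t ∈ FUs Y, h k ≤ mn t → ∀ j ≤ k, t ∈ A j := by
    intro k t ht hk j hj
    apply hb j t ht
    have h1 : mx (Y (m j)) + 1 ≤ ∑ j ∈ Finset.range (k + 1), (mx (Y (m j)) + 1) :=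
      Finset.single_le_sum (f := fun j => mx (Y (m j)) + 1) (fun _ _ => Nat.zero_le _)
        (Finset.mem_range.2 (by omega))
    have h2 : h k = k + ∑ j ∈ Finset.range (k + 1), (mx (Y (m j)) + 1) := rfl
    omega
  have hle : ∀ k, k ≤ h k := fun k => Nat.le_add_right _ _
  let κ : ℕ → ℕ := fun x => Nat.findGreatest (fun k => h k ≤ x) x
  have hκ_ge : ∀ k x, h k ≤ x → k ≤ κ x := by
    intro k x hk
    exact Nat.le_findGreatest ((hle k).trans hk) hk
  obtain ⟨X, hX, hXW, hXD, hXs⟩ := ou_sep hW (fun x => h (G x + 1))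
    (Filter.inter_mem (Filter.inter_mem hYW hC) (hA 0))
  refine ⟨X, κ, hX, hXW, fun t ht => (hXD ht).1.2, ?_, ?_, ?_, ?_⟩
  · intro x y hxy
    exact Nat.findGreatest_mono (fun k hk => le_trans hk hxy) hxy
  · intro k
    exact ⟨h k, hκ_ge k _ le_rfl⟩
  · intro t ht k hk
    by_cases h0 : κ (mn t) = 0
    · rw [h0] at hk
      have : k = 0 := by omega
      subst this
      exact (hXD ht).2
    · have h1 : h (κ (mn t)) ≤ mn t := by
        have := Nat.findGreatest_of_ne_zero (P := fun k => h k ≤ mn t) (n := mn t) (m := κ (mn t))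
          rfl h0
        exact this
      exact hh _ t (hXD ht).1.1 h1 k hk
  · intro s hs t ht hst
    have := hκ_ge _ _ (hXs s hs t ht hst).le
    omega

end Pool.Agent.Lib.MP_1c3dfa_lc
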