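import Pool.Agent.Lib.MP_1c3dfa_lc.Cont
import Pool.Agent.Lib.MP_1c3dfa_lc.Mono

set_option autoImplicit false

/-! # M4: at most one class of near coherence below a p-point -/

namespace Pool.Agent.Lib.MP_1c3dfa_lc

open Set

theorem pPoint_near {W V : Ultrafilter ℕ} (hW : IsPPoint W) (hnW : Nonprincipal W)
    (hnV : Nonprincipal V) {f : Set ℕ → Set ℕ} (hf : TMap W V f) :
    ∃ (g : ℕ → ℕ) (T : Set ℕ), T ∈ W ∧ ∀ X ∈ W, X ⊆ T → ∀ n ∈ f X,
      ∃ x ∈ X, x ≤ g n ∧ n ≤ g x := by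
  classical
  set P : Unit → Ultrafilter ℕ := fun _ => W with hP
  set g0 : (Unit → Set ℕ) → Set ℕ := fun A => f (A ()) with hg0
  set F : Set ℕ → Set ℕ := fun s => Gen P g0 (fun _ => s) with hF
  have hFmem : ∀ s n, n ∈ F s ↔ ∀ A ∈ W, n ∈ f (s ∪ A) := by
    intro s n
    constructor
    · intro h A hA
      exact h (fun _ => A) (fun _ => hA)
    · intro h A hA
      exact h (A ()) (hA ())
  have hF0 : F ∅ = ∅ := by
    ext n
    simp only [mem_empty_iff_false, iff_false]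
    intro hn
    rw [hFmem] at hn
    have h1 : ({n} : Set ℕ)ᶜ ∈ V := Ultrafilter.compl_mem_iff_notMem.2 (hnV n)
    obtain ⟨X, hX, hXn⟩ := hf.cof _ h1
    have h2 := hn X hX
    rw [empty_union] at h2
    exact hXn h2 rfl
  obtain ⟨E, hE, hEF⟩ := exists_not_superset V (fun s : Finset ℕ => F (s : Set ℕ))
  obtain ⟨X1, hX1, hX1E⟩ := hf.cof E hE
  have hfin : ∀ s : Finset ℕ, (s : Set ℕ) ⊆ X1 → (F (s : Set ℕ)).Finite := by
    intro s hs
    by_contra hc
    refine hEF s hc ?_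
    intro n hn
    have h1 := (hFmem _ _).1 hn X1 hX1
    rw [union_eq_self_of_subset_left hs] at h1
    exact hX1E h1
  obtain ⟨T1', K, hT1', hK, hcont⟩ := exists_cont P (fun _ => hnW) (fun _ => hW) g0
    (fun A B _ _ hAB => hf.mono _ _ (hAB ()))
  set T1 : Set ℕ := T1' () with hT1
  have hT1W : T1 ∈ W := hT1' ()
  have hcont' : ∀ k ∈ K, ∀ X ∈ W, X ⊆ T1 → ∀ n < k, n ∈ f X → n ∈ F (X ∩ Iio k) := by
    intro k hk X hX hXT n hn hnX
    exact hcont k hk (fun _ => X) (fun _ => hX) (fun _ => hXT) n hn hnX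
  have hkex : ∀ n : ℕ, ∃ k ∈ K, n < k := fun n => hK.exists_gt n
  choose kk hkkK hkk using hkex
  have hM : ∀ x : ℕ, ∃ M : ℕ, ∀ s : Finset ℕ, (s : Set ℕ) ⊆ X1 → s ⊆ Finset.range (x + 1) →
      ∀ n ∈ F (s : Set ℕ), n ≤ M := by
    intro x
    have h1 : (⋃ s ∈ {s : Finset ℕ | (s : Set ℕ) ⊆ X1 ∧ s ⊆ Finset.range (x + 1)},
        F (s : Set ℕ)).Finite := by
      apply Set.Finite.biUnion
      · apply (Finset.finite_toSet (Finset.range (x + 1)).powerset).subset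
        rintro s ⟨_, hs⟩
        exact Finset.mem_coe.2 (Finset.mem_powerset.2 hs)
      · rintro s ⟨hs, _⟩
        exact hfin s hs
    obtain ⟨M, hM⟩ := h1.bddAbove
    refine ⟨M, fun s hs hs' n hn => hM ?_⟩
    exact mem_biUnion (show s ∈ {s : Finset ℕ | (s : Set ℕ) ⊆ X1 ∧ s ⊆ Finset.range (x + 1)}
      from ⟨hs, hs'⟩) hn
  choose M hM using hM
  refine ⟨fun x => max (kk x) (M x), T1 ∩ X1, Filter.inter_mem hT1W hX1, ?_⟩
  intro X hX hXT n hn
  have hnF := hcont' (kk n) (hkkK n) X hX (fun x hx => (hXT hx).1) n (hkk n) hn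
  have hXfin : (X ∩ Iio (kk n)).Finite := (Set.finite_Iio _).subset inter_subset_right
  set s : Finset ℕ := hXfin.toFinset with hs
  have hscoe : (s : Set ℕ) = X ∩ Iio (kk n) := hXfin.coe_toFinset
  have hsne : s.Nonempty := by
    rw [Finset.nonempty_iff_ne_empty]
    intro h
    have h1 : X ∩ Iio (kk n) = ∅ := by rw [← hscoe, h]; simp
    rw [h1, hF0] at hnF
    exact hnF
  set x := s.max' hsne with hx
  have hxs : x ∈ (s : Set ℕ) := Finset.mem_coe.2 (s.max'_mem hsne)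
  rw [hscoe] at hxs
  refine ⟨x, hxs.1, ?_, ?_⟩
  · exact le_trans (le_of_lt hxs.2) (le_max_left _ _)
  · refine le_trans (hM x s ?_ ?_ n ?_) (le_max_right _ _)
    · rw [hscoe]
      exact fun y hy => (hXT hy.1).2
    · intro y hy
      rw [Finset.mem_range]
      exact Nat.lt_succ_of_le (s.le_max' y hy)
    · rw [hscoe]
      exact hnF

theorem not_two_le_pPoint {W V V' : Ultrafilter ℕ} (hW : IsPPoint W) (hnW : Nonprincipal W)
    (hnV : Nonprincipal V) (hnV' : Nonprincipal V') (hs : Sep V V')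
    (h : TukeyLE V W) (h' : TukeyLE V' W) : False := by
  obtain ⟨f, hf⟩ := exists_tMap h
  obtain ⟨f', hf'⟩ := exists_tMap h'
  obtain ⟨g1, T1, hT1, hn1⟩ := pPoint_near hW hnW hnV hf
  obtain ⟨g2, T2, hT2, hn2⟩ := pPoint_near hW hnW hnV' hf'
  set g : ℕ → ℕ := fun m => (Finset.range (m + 1)).sup g1 + (Finset.range (m + 1)).sup g2 with hg
  have hgm : Monotone g := by
    intro a b hab
    have hsub : Finset.range (a + 1) ⊆ Finset.range (b + 1) := by
      intro x hx; simp only [Finset.mem_range] at hx ⊢; omega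
    have h1 : (Finset.range (a + 1)).sup g1 ≤ (Finset.range (b + 1)).sup g1 :=
      Finset.sup_mono hsub
    have h2 : (Finset.range (a + 1)).sup g2 ≤ (Finset.range (b + 1)).sup g2 :=
      Finset.sup_mono hsub
    simp only [hg]
    omega
  have hgg1 : ∀ x, g1 x ≤ g x := by
    intro x
    have : g1 x ≤ (Finset.range (x + 1)).sup g1 :=
      Finset.le_sup (f := g1) (Finset.mem_range.2 (Nat.lt_succ_self x))
    simp only [hg]
    omega
  have hgg2 : ∀ x, g2 x ≤ g x := by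
    intro x
    have : g2 x ≤ (Finset.range (x + 1)).sup g2 :=
      Finset.le_sup (f := g2) (Finset.mem_range.2 (Nat.lt_succ_self x))
    simp only [hg]
    omega
  obtain ⟨E, hE, E', hE', hEE⟩ := hs (fun x => g (g x))
  obtain ⟨XE, hXE, hXE'⟩ := hf.cof E hE
  obtain ⟨XF, hXF, hXF'⟩ := hf'.cof E' hE'
  set X : Set ℕ := (T1 ∩ T2) ∩ (XE ∩ XF) with hX
  have hXW : X ∈ W := Filter.inter_mem (Filter.inter_mem hT1 hT2) (Filter.inter_mem hXE hXF)
  -- the set of points near a member of the separating set is large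
  have key : ∀ (U : Ultrafilter ℕ) (φ : Set ℕ → Set ℕ) (D : Set ℕ), TMap W U φ →
      (∀ Y ∈ W, Y ⊆ X → ∀ n ∈ φ Y, ∃ x ∈ Y, x ≤ g n ∧ n ≤ g x) → φ X ⊆ D →
      {x ∈ X | ∃ n ∈ D, x ≤ g n ∧ n ≤ g x} ∈ W := by
    intro U φ D hφ hnear hD
    by_contra hc
    have h1 := Ultrafilter.compl_mem_iff_notMem.2 hc
    have h2 : X ∩ {x ∈ X | ∃ n ∈ D, x ≤ g n ∧ n ≤ g x}ᶜ ∈ W := Filter.inter_mem hXW h1
    obtain ⟨n, hn⟩ := Ultrafilter.nonempty_of_mem (hφ.mem _ h2)
    obtain ⟨x, hx, hxn, hnx⟩ := hnear _ h2 inter_subset_left n hn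
    exact hx.2 ⟨hx.1, n, hD (hφ.mono _ _ inter_subset_left hn), hxn, hnx⟩
  have k1 := key V f E hf (by
    intro Y hY hYX n hn
    obtain ⟨x, hx, h1, h2⟩ := hn1 Y hY (fun y hy => (hYX hy).1.1) n hn
    exact ⟨x, hx, h1.trans (hgg1 n), h2.trans (hgg1 x)⟩)
    ((hf.mono _ _ (fun y hy => hy.2.1)).trans hXE')
  have k2 := key V' f' E' hf' (by
    intro Y hY hYX n hn
    obtain ⟨x, hx, h1, h2⟩ := hn2 Y hY (fun y hy => (hYX hy).1.2) n hn
    exact ⟨x, hx, h1.trans (hgg2 n), h2.trans (hgg2 x)⟩)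
    ((hf'.mono _ _ (fun y hy => hy.2.2)).trans hXF')
  obtain ⟨x, ⟨_, n, hnE, hxn, hnx⟩, ⟨_, n', hnE', hxn', hnx'⟩⟩ :=
    Ultrafilter.nonempty_of_mem (Filter.inter_mem k1 k2)
  have e1 : n ≤ g (g n') := hnx.trans (hgm hxn')
  have e2 : n' ≤ g (g n) := hnx'.trans (hgm hxn)
  rcases le_total n n' with hc | hc
  · exact absurd ((hEE n hnE n' hnE').1 hc) (not_lt.2 e2)
  · exact absurd ((hEE n hnE n' hnE').2 hc) (not_lt.2 e1)

end Pool.Agent.Lib.MP_1c3dfa_lc
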