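import Pool.Agent.Lib.MP_1c3dfa_lc.Defs
import Pool.Agent.Lib.MP_1c3dfa_lc.Mono
import Pool.Agent.Lib.MP_1c3dfa_lc.Cont

set_option autoImplicit false

/-!
# The product of three separated p-points
-/

namespace Pool.Agent.Lib.MP_1c3dfa_lc

open Set

/-! ### Strings -/

namespace ProdAux

theorem mem_d {s : List Bool} {i : ℕ} : i ∈ d s ↔ s[i]? = some true := Iff.rfl

theorem lt_length_of_mem_d {s : List Bool} {i : ℕ} (h : i ∈ d s) : i < s.length := by
  rw [mem_d] at h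
  by_contra hc
  rw [List.getElem?_eq_none (by omega)] at h
  exact absurd h (by simp)

/-- The string of length `n` with `d = X ∩ n`. -/
noncomputable def chi (X : Set ℕ) (n : ℕ) : List Bool := by
  classical
  exact List.ofFn (n := n) fun i => decide ((i : ℕ) ∈ X)

theorem chi_length (X : Set ℕ) (n : ℕ) : (chi X n).length = n := by
  simp [chi]

theorem d_chi (X : Set ℕ) (n : ℕ) : d (chi X n) = X ∩ Iio n := by
  ext i
  simp only [mem_d, chi, mem_inter_iff, mem_Iio, List.getElem?_ofFn]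
  constructor
  · intro h
    split_ifs at h with h1
    · simp at h
      exact ⟨h, h1⟩
  · rintro ⟨h1, h2⟩
    rw [dif_pos h2]
    simp [h1]

theorem ext_of_d {s t : List Bool} (hl : s.length = t.length) (h : d s = d t) : s = t := by
  apply List.ext_getElem hl
  intro i h1 h2
  have h3 : i ∈ d s ↔ i ∈ d t := by rw [h]
  rw [mem_d, mem_d, List.getElem?_eq_getElem h1, List.getElem?_eq_getElem h2] at h3
  simp only [Option.some.injEq] at h3
  exact Bool.eq_iff_iff.mpr h3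

theorem d_of_isPrefix {s t : List Bool} (h : s <+: t) : d s = d t ∩ Iio s.length := by
  obtain ⟨r, rfl⟩ := h
  ext i
  simp only [mem_inter_iff, mem_Iio, mem_d]
  constructor
  · intro hi
    have := lt_length_of_mem_d (s := s) hi
    rw [List.getElem?_append_left this]
    exact ⟨hi, this⟩
  · rintro ⟨h1, h2⟩
    rw [List.getElem?_append_left h2] at h1
    exact h1

theorem isPrefix_of_d {s t : List Bool} (hl : s.length ≤ t.length)
    (h : d s = d t ∩ Iio s.length) : s <+: t := by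
  have h1 : s = t.take s.length := by
    apply ext_of_d
    · simp [hl]
    · rw [h]
      ext i
      simp only [mem_inter_iff, mem_Iio, mem_d, List.getElem?_take]
      constructor
      · rintro ⟨h1, h2⟩
        rw [if_pos h2]
        exact h1
      · intro h1
        split_ifs at h1 with h2
        exact ⟨h1, h2⟩
  rw [h1]
  exact List.take_prefix _ _

/-! ### Membership in the product -/

theorem mem_fubini3 {p q r : Ultrafilter ℕ} {X : Set ℕ} :
    X ∈ fubini3 p q r ↔ {a | {b | {c | code a b c ∈ X} ∈ r} ∈ q} ∈ p := Iff.rfl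

theorem setOf_const_mem {U : Ultrafilter ℕ} {P : Prop} : {_x : ℕ | P} ∈ U ↔ P := by
  constructor
  · intro h
    obtain ⟨x, hx⟩ := U.neBot.nonempty_of_mem h
    exact hx
  · intro h
    have : {_x : ℕ | P} = univ := eq_univ_of_forall (fun _ => h)
    rw [this]
    exact Filter.univ_mem

theorem exists_gt {U : Ultrafilter ℕ} (h : Nonprincipal U) {X : Set ℕ} (hX : X ∈ U) (n : ℕ) :
    ∃ x ∈ X, n < x := by
  obtain ⟨x, hx1, hx2⟩ := U.neBot.nonempty_of_mem (Filter.inter_mem hX (h.Ici_mem (n + 1)))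
  exact ⟨x, hx1, hx2⟩

theorem Ioi_mem {U : Ultrafilter ℕ} (h : Nonprincipal U) (n : ℕ) : Ioi n ∈ U :=
  Filter.mem_of_superset (h.Ici_mem (n + 1)) (fun _ hx => hx)

/-! ### Codes -/

theorem code_inj {a b c a' b' c' : ℕ} (h : code a b c = code a' b' c') :
    a = a' ∧ b = b' ∧ c = c' := by
  have h1 := Nat.pair_eq_pair.1 h
  have h2 := Nat.pair_eq_pair.1 h1.1
  exact ⟨h2.1, h2.2, h1.2⟩

/-- a bound for the codes of triples of numbers `≤ c`. -/
def Bd (c : ℕ) : ℕ := ((c + 1) ^ 2 + 1) ^ 2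

theorem code_lt_Bd {a b c' c : ℕ} (ha : a ≤ c) (hb : b ≤ c) (hc : c' ≤ c) :
    code a b c' < Bd c := by
  have h1 : Nat.pair a b < (max a b + 1) ^ 2 := Nat.pair_lt_max_add_one_sq a b
  have h2 : (max a b + 1) ^ 2 ≤ (c + 1) ^ 2 :=
    Nat.pow_le_pow_left (by omega) 2
  have h3 : code a b c' < (max (Nat.pair a b) c' + 1) ^ 2 := Nat.pair_lt_max_add_one_sq _ _
  have h4 : c' ≤ (c + 1) ^ 2 := by nlinarith
  have h5 : (max (Nat.pair a b) c' + 1) ^ 2 ≤ ((c + 1) ^ 2 + 1) ^ 2 :=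
    Nat.pow_le_pow_left (by omega) 2
  exact lt_of_lt_of_le h3 h5

theorem le_code_snd (a b c : ℕ) : b ≤ code a b c :=
  le_trans (Nat.right_le_pair a b) (Nat.left_le_pair _ c)

theorem le_code_thd (a b c : ℕ) : c ≤ code a b c := Nat.right_le_pair _ c

/-! ### Boxes -/

/-- The box with the three sides `A`, `B`, `C`. -/
def Box (A B C : Set ℕ) : Set ℕ :=
  {n | ∃ a ∈ A, ∃ b ∈ B, ∃ c ∈ C, a < b ∧ b < c ∧ n = code a b c}

theorem box_mono {A B C A' B' C' : Set ℕ} (hA : A ⊆ A') (hB : B ⊆ B') (hC : C ⊆ C') :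
    Box A B C ⊆ Box A' B' C' := by
  rintro n ⟨a, ha, b, hb, c, hc, h1, h2, h3⟩
  exact ⟨a, hA ha, b, hB hb, c, hC hc, h1, h2, h3⟩

theorem code_mem_box {A B C : Set ℕ} {a b c : ℕ} :
    code a b c ∈ Box A B C ↔ a ∈ A ∧ b ∈ B ∧ c ∈ C ∧ a < b ∧ b < c := by
  constructor
  · rintro ⟨a', ha, b', hb, c', hc, h1, h2, h3⟩
    obtain ⟨rfl, rfl, rfl⟩ := code_inj h3
    exact ⟨ha, hb, hc, h1, h2⟩
  · rintro ⟨h1, h2, h3, h4, h5⟩
    exact ⟨a, h1, b, h2, c, h3, h4, h5, rfl⟩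

theorem box_mem {p q r : Ultrafilter ℕ} (hnq : Nonprincipal q) (hnr : Nonprincipal r)
    {A B C : Set ℕ} (hA : A ∈ p) (hB : B ∈ q) (hC : C ∈ r) : Box A B C ∈ fubini3 p q r := by
  rw [mem_fubini3]
  refine Filter.mem_of_superset hA ?_
  intro a ha
  refine Filter.mem_of_superset (Filter.inter_mem hB (Ioi_mem hnq a)) ?_
  rintro b ⟨hb, hab⟩
  refine Filter.mem_of_superset (Filter.inter_mem hC (Ioi_mem hnr b)) ?_
  rintro c ⟨hc, hbc⟩
  exact ⟨a, ha, b, hb, c, hc, hab, hbc, rfl⟩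

/-- a finite-to-one control for pseudo-intersections. -/
theorem exists_pseudo {U : Ultrafilter ℕ} (hP : IsPPoint U) (X : ℕ → Set ℕ)
    (hX : ∀ n, X n ∈ U) : ∃ Y ∈ U, ∃ h : ℕ → ℕ, ∀ n, ∀ y ∈ Y, h n < y → y ∈ X n := by
  obtain ⟨Y, hY, hfin⟩ := hP X hX
  have : ∀ n, ∃ m, ∀ y ∈ Y, m < y → y ∈ X n := by
    intro n
    obtain ⟨m, hm⟩ := (hfin n).bddAbove
    refine ⟨m, fun y hy hmy => ?_⟩
    by_contra hc
    exact absurd (hm ⟨hy, hc⟩) (not_le.2 hmy)
  choose h hh using this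
  exact ⟨Y, hY, h, hh⟩

/-- The boxes form a base of the product of separated p-points. -/
theorem exists_box {p q r : Ultrafilter ℕ} (hq : IsPPoint q) (hr : IsPPoint r)
    (h1 : Sep p q) (h2 : Sep q r) {X : Set ℕ} (hX : X ∈ fubini3 p q r) :
    ∃ A ∈ p, ∃ B ∈ q, ∃ C ∈ r, Box A B C ⊆ X := by
  rw [mem_fubini3] at hX
  obtain ⟨Bs, hBs⟩ : ∃ Bs : ℕ → Set ℕ, Bs = fun a => {b | {c | code a b c ∈ X} ∈ r} := ⟨_, rfl⟩
  obtain ⟨A0, hA0⟩ : ∃ A0 : Set ℕ, A0 = {a | Bs a ∈ q} := ⟨_, rfl⟩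
  have hA0p : A0 ∈ p := by rw [hA0, hBs]; exact hX
  have hC1 : ∀ a b, {c | b ∈ Bs a → code a b c ∈ X} ∈ r := by
    intro a b
    by_cases h : b ∈ Bs a
    · have h' := h
      rw [hBs] at h'
      exact Filter.mem_of_superset h' (fun c hc _ => hc)
    · exact Filter.mem_of_superset Filter.univ_mem (fun c _ h3 => absurd h3 h)
  have hB1 : ∀ a, {b | a ∈ A0 → b ∈ Bs a} ∈ q := by
    intro a
    by_cases h : a ∈ A0
    · have h' := h
      rw [hA0] at h'
      exact Filter.mem_of_superset h' (fun c hc _ => hc)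
    · exact Filter.mem_of_superset Filter.univ_mem (fun c _ h3 => absurd h3 h)
  obtain ⟨C', hC', hh, hhh⟩ := exists_pseudo hr
    (fun m => ⋂ a ∈ Iic m, ⋂ b ∈ Iic m, {c | b ∈ Bs a → code a b c ∈ X}) (by
      intro m
      refine (Filter.biInter_mem (f := (r : Filter ℕ)) (finite_Iic m)).2 (fun a _ => ?_)
      exact (Filter.biInter_mem (f := (r : Filter ℕ)) (finite_Iic m)).2 (fun b _ => hC1 a b))
  obtain ⟨B', hB', h', hh'⟩ := exists_pseudo hq
    (fun m => ⋂ a ∈ Iic m, {b | a ∈ A0 → b ∈ Bs a}) (by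
      intro m
      exact (Filter.biInter_mem (f := (q : Filter ℕ)) (finite_Iic m)).2 (fun a _ => hB1 a))
  obtain ⟨A1, hA1, B1, hB1', hs1⟩ := h1 h'
  obtain ⟨B2, hB2, C2, hC2, hs2⟩ := h2 hh
  refine ⟨A0 ∩ A1, Filter.inter_mem hA0p hA1, B' ∩ (B1 ∩ B2),
    Filter.inter_mem hB' (Filter.inter_mem hB1' hB2), C' ∩ C2, Filter.inter_mem hC' hC2, ?_⟩
  rintro n ⟨a, ⟨ha0, ha1⟩, b, ⟨hb', hb1, hb2⟩, c, ⟨hc', hc2⟩, hab, hbc, rfl⟩
  have e1 := hh' a b hb' ((hs1 a ha1 b hb1).1 hab.le)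
  have e2 := hhh b c hc' ((hs2 b hb2 c hc2).1 hbc.le)
  simp only [mem_iInter, mem_Iic, mem_ofPred_eq] at e1 e2
  exact e2 a hab.le b le_rfl (e1 a le_rfl ha0)

/-! ### Coordinates -/

/-- The three coordinate projections of a set of codes. -/
def proj (S : Set ℕ) : Fin 3 → Set ℕ :=
  ![{a | ∃ b c, code a b c ∈ S}, {b | ∃ a c, code a b c ∈ S}, {c | ∃ a b, code a b c ∈ S}]

theorem proj_mono {S S' : Set ℕ} (h : S ⊆ S') (i : Fin 3) : proj S i ⊆ proj S' i := by
  fin_cases i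
  · rintro a ⟨b, c, hh⟩
    exact ⟨b, c, h hh⟩
  · rintro a ⟨b, c, hh⟩
    exact ⟨b, c, h hh⟩
  · rintro a ⟨b, c, hh⟩
    exact ⟨b, c, h hh⟩

theorem proj_box {q r : Ultrafilter ℕ} (hnq : Nonprincipal q) (hnr : Nonprincipal r)
    {A B C : Set ℕ} (hB : B ∈ q) (hC : C ∈ r)
    (hBA : ∀ b ∈ B, ∃ a ∈ A, a < b) (hCB : ∀ c ∈ C, ∃ b ∈ B, b < c) :
    proj (Box A B C) = ![A, B, C] := by
  funext i
  fin_cases i
  · apply Subset.antisymm
    · rintro a ⟨b, c, h⟩
      exact (code_mem_box.1 h).1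
    · intro a ha
      obtain ⟨b, hb, hab⟩ := exists_gt hnq hB a
      obtain ⟨c, hc, hbc⟩ := exists_gt hnr hC b
      exact ⟨b, c, code_mem_box.2 ⟨ha, hb, hc, hab, hbc⟩⟩
  · apply Subset.antisymm
    · rintro b ⟨a, c, h⟩
      exact (code_mem_box.1 h).2.1
    · intro b hb
      obtain ⟨a, ha, hab⟩ := hBA b hb
      obtain ⟨c, hc, hbc⟩ := exists_gt hnr hC b
      exact ⟨a, c, code_mem_box.2 ⟨ha, hb, hc, hab, hbc⟩⟩
  · apply Subset.antisymm
    · rintro c ⟨a, b, h⟩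
      exact (code_mem_box.1 h).2.2.1
    · intro c hc
      obtain ⟨b, hb, hbc⟩ := hCB c hc
      obtain ⟨a, ha, hab⟩ := hBA b hb
      exact ⟨a, b, code_mem_box.2 ⟨ha, hb, hc, hab, hbc⟩⟩

/-- The set of levels of `K` decided by the finite set `S`. -/
def lev (K S : Set ℕ) : Set ℕ :=
  {k | k ∈ K ∧ ∃ a b c, code a b c ∈ S ∧ k ≤ b ∧ ∃ m ∈ S, Bd c ≤ m}

theorem lev_mono {K S S' : Set ℕ} (h : S ⊆ S') : lev K S ⊆ lev K S' := by
  rintro k ⟨hk, a, b, c, h1, h2, m, hm, h3⟩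
  exact ⟨hk, a, b, c, h h1, h2, m, h hm, h3⟩

theorem lev_bdd {K : Set ℕ} (s : List Bool) : BddAbove (lev K (d s)) := by
  refine ⟨s.length, ?_⟩
  rintro k ⟨_, a, b, c, h1, h2, _⟩
  exact le_trans h2 (le_trans (le_code_snd a b c) (lt_length_of_mem_d h1).le)

/-- The key property of the levels. -/
theorem lev_key {A B C : Set ℕ}
    (hBA : ∀ b ∈ B, ∃ a ∈ A, a < b) (hCB : ∀ c ∈ C, ∃ b ∈ B, b < c) {K : Set ℕ} {n k : ℕ}
    (hk : k ∈ lev K (Box A B C ∩ Iio n)) (i : Fin 3) :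
    (![A, B, C] : Fin 3 → Set ℕ) i ∩ Iio k ⊆ proj (Box A B C ∩ Iio n) i := by
  obtain ⟨_, a0, b0, c0, ⟨h1, _⟩, h2, m, ⟨_, hm⟩, h3⟩ := hk
  obtain ⟨ha0, hb0, hc0, hab0, hbc0⟩ := code_mem_box.1 h1
  have hm' : m < n := hm
  have hb : ∀ a b c, a ≤ c0 → b ≤ c0 → c ≤ c0 → code a b c ∈ Box A B C →
      code a b c ∈ Box A B C ∩ Iio n := by
    intro a b c ha hb hc h
    refine ⟨h, ?_⟩
    have := code_lt_Bd ha hb hc
    simp only [mem_Iio]
    omega
  fin_cases i
  · rintro a ⟨ha, hak⟩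
    have hak' : a < k := hak
    have ha' : a ∈ A := ha
    exact ⟨b0, c0, hb _ _ _ (by omega) (by omega) le_rfl
      (code_mem_box.2 ⟨ha', hb0, hc0, by omega, by omega⟩)⟩
  · rintro b ⟨hbB, hbk⟩
    have hbk' : b < k := hbk
    obtain ⟨a, ha, hab⟩ := hBA b hbB
    exact ⟨a, c0, hb _ _ _ (by omega) (by omega) le_rfl
      (code_mem_box.2 ⟨ha, hbB, hc0, by omega, by omega⟩)⟩
  · rintro c ⟨hcC, hck⟩
    have hck' : c < k := hck
    obtain ⟨b, hbB, hbc⟩ := hCB c hcC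
    obtain ⟨a, ha, hab⟩ := hBA b hbB
    exact ⟨a, b, hb _ _ _ (by omega) (by omega) (by omega)
      (code_mem_box.2 ⟨ha, hbB, hcC, by omega, by omega⟩)⟩

theorem gen_mono {ι : Type*} {P : ι → Ultrafilter ℕ} {g : (ι → Set ℕ) → Set ℕ}
    (hg : ∀ A B : ι → Set ℕ, (∀ i, A i ∈ P i) → (∀ i, B i ∈ P i) → (∀ i, A i ⊆ B i) →
      g A ⊆ g B) {s t : ι → Set ℕ} (h : ∀ i, s i ⊆ t i) : Gen P g s ⊆ Gen P g t := by
  intro n hn A hA
  refine hg _ _ ?_ ?_ ?_ (hn A hA)
  · intro i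
    exact Filter.mem_of_superset (hA i) subset_union_right
  · intro i
    exact Filter.mem_of_superset (hA i) subset_union_right
  · intro i
    exact union_subset_union_left _ (h i)

theorem gen_self {ι : Type*} {P : ι → Ultrafilter ℕ} {g : (ι → Set ℕ) → Set ℕ}
    {s : ι → Set ℕ} (hs : ∀ i, s i ∈ P i) : Gen P g s ⊆ g s := by
  intro n hn
  have := hn s hs
  simpa using this

end ProdAux

open ProdAux

theorem fubini3_reductions {p q r : Ultrafilter ℕ} (hp : IsPPoint p) (hq : IsPPoint q)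
    (hr : IsPPoint r) (hnp : Nonprincipal p) (hnq : Nonprincipal q) (hnr : Nonprincipal r)
    (h1 : Sep p q) (h2 : Sep q r) :
    HasPointwiseBasicTukeyReductions (fubini3 p q r) := by
  intro V _ f hf _
  obtain ⟨P, hPdef⟩ : ∃ P : Fin 3 → Ultrafilter ℕ, P = ![p, q, r] := ⟨_, rfl⟩
  obtain ⟨g, hgdef⟩ : ∃ g : (Fin 3 → Set ℕ) → Set ℕ, g = fun A => f (Box (A 0) (A 1) (A 2)) :=
    ⟨_, rfl⟩
  have hP0 : P 0 = p := by rw [hPdef]; rfl
  have hP1 : P 1 = q := by rw [hPdef]; rfl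
  have hP2 : P 2 = r := by rw [hPdef]; rfl
  have hg : ∀ A B : Fin 3 → Set ℕ, (∀ i, A i ∈ P i) → (∀ i, B i ∈ P i) → (∀ i, A i ⊆ B i) →
      g A ⊆ g B := by
    intro A B hA hB hAB
    rw [hgdef]
    refine hf _ ?_ _ ?_ (box_mono (hAB 0) (hAB 1) (hAB 2))
    · exact box_mem hnq hnr (hP0 ▸ hB 0) (hP1 ▸ hB 1) (hP2 ▸ hB 2)
    · exact box_mem hnq hnr (hP0 ▸ hA 0) (hP1 ▸ hA 1) (hP2 ▸ hA 2)
  obtain ⟨T, K, hT, hK, hcont⟩ := exists_cont P
    (by intro i; rw [hPdef]; fin_cases i <;> assumption)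
    (by intro i; rw [hPdef]; fin_cases i <;> assumption) g hg
  -- the family
  obtain ⟨F, hF⟩ : ∃ F : Set (Set ℕ), F = {X | ∃ A ∈ p, ∃ B ∈ q, ∃ C ∈ r,
    A ⊆ T 0 ∧ B ⊆ T 1 ∧ C ⊆ T 2 ∧ (∀ b ∈ B, ∃ a ∈ A, a < b) ∧ (∀ c ∈ C, ∃ b ∈ B, b < c) ∧
      X = Box A B C} := ⟨_, rfl⟩
  have hFU : ∀ X ∈ F, X ∈ fubini3 p q r := by
    intro X hX
    rw [hF] at hX
    obtain ⟨A, hA, B, hB, C, hC, _, _, _, _, _, rfl⟩ := hX
    exact box_mem hnq hnr hA hB hC
  -- facts on tuples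
  have hmem : ∀ {A B C : Set ℕ}, A ∈ p → B ∈ q → C ∈ r →
      ∀ i, (![A, B, C] : Fin 3 → Set ℕ) i ∈ P i := by
    intro A B C hA hB hC i
    rw [hPdef]
    fin_cases i <;> assumption
  have hgbox : ∀ A B C : Set ℕ, g ![A, B, C] = f (Box A B C) := by
    intro A B C
    rw [hgdef]
    rfl
  -- the level function
  obtain ⟨l, hl⟩ : ∃ l : Set ℕ → ℕ, l = fun S => sSup (lev K S) := ⟨_, rfl⟩
  obtain ⟨G, hG⟩ : ∃ G : Set ℕ → Set ℕ, G = fun S => Gen P g (proj S) := ⟨_, rfl⟩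
  have hGmono : ∀ {S S' : Set ℕ}, S ⊆ S' → G S ⊆ G S' := by
    intro S S' h
    rw [hG]
    exact gen_mono hg (fun i => proj_mono h i)
  -- upper bound
  have hup : ∀ X ∈ F, ∀ S ⊆ X, G S ⊆ f X := by
    intro X hX S hS
    refine (hGmono hS).trans ?_
    rw [hF] at hX
    obtain ⟨A, hA, B, hB, C, hC, _, _, _, hBA, hCB, rfl⟩ := hX
    rw [hG]
    simp only
    rw [proj_box hnq hnr hB hC hBA hCB, ← hgbox]
    exact gen_self (hmem hA hB hC)
  -- the decision property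
  have hdec : ∀ X ∈ F, ∀ n k, k ∈ lev K (X ∩ Iio n) → ∀ y < k, y ∈ f X → y ∈ G (X ∩ Iio n) := by
    intro X hX n k hk y hy hyX
    rw [hF] at hX
    obtain ⟨A, hA, B, hB, C, hC, hAT, hBT, hCT, hBA, hCB, rfl⟩ := hX
    rw [← hgbox] at hyX
    have h3 := hcont k hk.1 ![A, B, C] (hmem hA hB hC)
      (by intro i; fin_cases i <;> assumption) y hy hyX
    rw [hG]
    exact gen_mono hg (fun i => lev_key hBA hCB hk i) h3
  have hlmono : ∀ s t : List Bool, d s ⊆ d t → l (d s) ≤ l (d t) := by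
    intro s t hst
    rw [hl]
    simp only
    rcases (lev K (d s)).eq_empty_or_nonempty with h | h
    · rw [h]; simp
    · exact csSup_le_csSup (lev_bdd t) h (lev_mono hst)
  have hlmem : ∀ s : List Bool, l (d s) = 0 ∨ l (d s) ∈ lev K (d s) := by
    intro s
    rw [hl]
    simp only
    rcases (lev K (d s)).eq_empty_or_nonempty with h | h
    · left; rw [h]; simp
    · right; exact Nat.sSup_mem h (lev_bdd s)
  -- long strings
  have hlong : ∀ X ∈ F, ∀ m, ∃ n, m ≤ l (X ∩ Iio n) := by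
    intro X hX m
    have hXU := hFU X hX
    rw [hF] at hX
    obtain ⟨A, hA, B, hB, C, hC, hAT, hBT, hCT, hBA, hCB, rfl⟩ := hX
    obtain ⟨k, hk, hmk⟩ := hK.exists_gt m
    obtain ⟨b, hb, hkb⟩ := exists_gt hnq hB k
    obtain ⟨a, ha, hab⟩ := hBA b hb
    obtain ⟨c, hc, hbc⟩ := exists_gt hnr hC b
    obtain ⟨c', hc', hcc'⟩ := exists_gt hnr hC (max b (Bd c))
    have hx1 : code a b c ∈ Box A B C := code_mem_box.2 ⟨ha, hb, hc, hab, hbc⟩
    have hx2 : code a b c' ∈ Box A B C := code_mem_box.2 ⟨ha, hb, hc', hab, by omega⟩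
    have hle := le_code_thd a b c'
    refine ⟨max (code a b c) (code a b c') + 1, ?_⟩
    have hkl : k ∈ lev K (Box A B C ∩ Iio (max (code a b c) (code a b c') + 1)) := by
      refine ⟨hk, a, b, c, ⟨hx1, ?_⟩, hkb.le, code a b c', ⟨hx2, ?_⟩, ?_⟩
      · simp only [mem_Iio]; omega
      · simp only [mem_Iio]; omega
      · omega
    have hbd : BddAbove (lev K (Box A B C ∩ Iio (max (code a b c) (code a b c') + 1))) := by
      rw [← d_chi]
      exact lev_bdd _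
    rw [hl]
    exact le_trans hmk.le (le_csSup hbd hkl)
  refine ⟨F, ⟨hFU, ?_⟩, ?_, ?_⟩
  · -- cofinality
    intro X hX
    obtain ⟨A, hA, B, hB, C, hC, hbox⟩ := exists_box hq hr h1 h2 hX
    have hT0 : T 0 ∈ p := hP0 ▸ hT 0
    have hT1 : T 1 ∈ q := hP1 ▸ hT 1
    have hT2 : T 2 ∈ r := hP2 ▸ hT 2
    have hA' : A ∩ T 0 ∈ p := Filter.inter_mem hA hT0
    obtain ⟨a0, ha0⟩ := p.neBot.nonempty_of_mem hA'
    have hB' : B ∩ T 1 ∩ Ioi a0 ∈ q := Filter.inter_mem (Filter.inter_mem hB hT1) (Ioi_mem hnq a0)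
    obtain ⟨b0, hb0⟩ := q.neBot.nonempty_of_mem hB'
    have hC' : C ∩ T 2 ∩ Ioi b0 ∈ r := Filter.inter_mem (Filter.inter_mem hC hT2) (Ioi_mem hnr b0)
    refine ⟨Box (A ∩ T 0) (B ∩ T 1 ∩ Ioi a0) (C ∩ T 2 ∩ Ioi b0), ?_, ?_⟩
    · rw [hF]
      refine ⟨_, hA', _, hB', _, hC', inter_subset_right, ?_, ?_, ?_, ?_, rfl⟩
      · exact fun x hx => hx.1.2
      · exact fun x hx => hx.1.2
      · exact fun b hb => ⟨a0, ha0, hb.2⟩
      · exact fun c hc => ⟨b0, hb0, hc.2⟩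
    · exact (box_mono inter_subset_left (fun x hx => hx.1.1) (fun x hx => hx.1.1)).trans hbox
  · -- monotone
    intro X hX Y hY hYX
    exact hf X (hFU X hX) Y (hFU Y hY) hYX
  · refine ⟨fun s => chi (G (d s)) (l (d s)), ?_, ?_, ?_, ?_⟩
    · -- initial segments
      rintro s hs s' hs' hpre
      obtain ⟨X, hX, hsX⟩ := hs'
      have hds : d s = X ∩ Iio s.length := by
        rw [d_of_isPrefix hpre, hsX]
        have hle : s.length ≤ s'.length := hpre.length_le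
        ext x
        simp only [mem_inter_iff, mem_Iio]
        constructor
        · rintro ⟨⟨e1, _⟩, e3⟩; exact ⟨e1, e3⟩
        · rintro ⟨e1, e2⟩; exact ⟨⟨e1, by omega⟩, e2⟩
      have hsub : d s ⊆ d s' := by
        rw [d_of_isPrefix hpre]; exact inter_subset_left
      have hle := hlmono s s' hsub
      apply isPrefix_of_d
      · rw [chi_length, chi_length]; exact hle
      · rw [chi_length, d_chi, d_chi]
        rcases hlmem s with h0 | h0
        · rw [h0]; simp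
        · ext y
          simp only [mem_inter_iff, mem_Iio]
          constructor
          · rintro ⟨e1, e2⟩
            exact ⟨⟨hGmono hsub e1, by omega⟩, e2⟩
          · rintro ⟨⟨e1, _⟩, e3⟩
            refine ⟨?_, e3⟩
            have e4 : y ∈ f X := hup X hX (d s') (by rw [hsX]; exact inter_subset_left) e1
            rw [hds] at h0 e3 ⊢
            exact hdec X hX s.length _ h0 y e3 e4
    · -- monotone
      intro s _ t _ hst
      rw [d_chi, d_chi]
      rintro y ⟨e1, e2⟩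
      have := hlmono s t hst
      simp only [mem_Iio] at e2
      exact ⟨hGmono hst e1, by simp only [mem_Iio]; omega⟩
    · -- long values
      intro X hX m
      obtain ⟨n, hn⟩ := hlong X hX m
      refine ⟨chi X n, ⟨X, hX, by rw [chi_length, d_chi]⟩, by rw [chi_length, d_chi], ?_⟩
      rw [chi_length, d_chi]
      exact hn
    · -- generation
      intro X hX
      apply Subset.antisymm
      · intro y hy
        obtain ⟨n, hn⟩ := hlong X hX (y + 1)
        simp only [mem_iUnion, mem_ofPred_eq, exists_prop]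
        refine ⟨chi X n, ⟨⟨X, hX, by rw [chi_length, d_chi]⟩, ?_⟩, ?_⟩
        · rw [d_chi]
          refine ⟨inter_subset_left, ?_⟩
          rintro x hx z ⟨_, hz⟩ hxz
          exact ⟨hx, lt_of_le_of_lt hxz hz⟩
        · rw [d_chi, d_chi]
          have h3 : l (X ∩ Iio n) ∈ lev K (X ∩ Iio n) := by
            rcases hlmem (chi X n) with h0 | h0
            · rw [d_chi] at h0
              omega
            · rw [d_chi] at h0
              exact h0
          refine ⟨hdec X hX n _ h3 y (by omega) hy, ?_⟩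
          simp only [mem_Iio]
          omega
      · intro y hy
        simp only [mem_iUnion, mem_ofPred_eq, exists_prop] at hy
        obtain ⟨s, ⟨_, hs⟩, hys⟩ := hy
        rw [d_chi] at hys
        exact hup X hX (d s) hs.1 hys.1

theorem fubini3_nonprincipal {p q r : Ultrafilter ℕ} (_hnp : Nonprincipal p)
    (_hnq : Nonprincipal q) (hnr : Nonprincipal r) : Nonprincipal (fubini3 p q r) := by
  intro n hn
  rw [mem_fubini3] at hn
  obtain ⟨a, ha⟩ := p.neBot.nonempty_of_mem hn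
  obtain ⟨b, hb⟩ := q.neBot.nonempty_of_mem ha
  obtain ⟨c, hc, hc'⟩ := exists_gt hnr hb n
  have h1 : code a b c = n := hc
  have h2 := le_code_thd a b c
  omega

theorem tukeyLE_fubini3 (p q r : Ultrafilter ℕ) :
    TukeyLE p (fubini3 p q r) ∧ TukeyLE q (fubini3 p q r) ∧ TukeyLE r (fubini3 p q r) := by
  refine ⟨?_, ?_, ?_⟩
  · have h : (fubini3 p q r).map (fun n => (Nat.unpair (Nat.unpair n).1).1) = p := by
      apply Ultrafilter.ext
      intro X
      rw [Ultrafilter.mem_map, mem_fubini3]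
      have : {a | {b | {c | code a b c ∈ (fun n => (Nat.unpair (Nat.unpair n).1).1) ⁻¹' X} ∈ r}
          ∈ q} = X := by
        ext a
        simp only [mem_preimage, code, Nat.unpair_pair, mem_ofPred_eq, setOf_const_mem]
      rw [this]
    have h3 := tukeyLE_map (fubini3 p q r) (fun n => (Nat.unpair (Nat.unpair n).1).1)
    rwa [h] at h3
  · have h : (fubini3 p q r).map (fun n => (Nat.unpair (Nat.unpair n).1).2) = q := by
      apply Ultrafilter.ext
      intro X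
      rw [Ultrafilter.mem_map, mem_fubini3]
      simp only [mem_preimage, code, Nat.unpair_pair, setOf_const_mem]
      rfl
    have h3 := tukeyLE_map (fubini3 p q r) (fun n => (Nat.unpair (Nat.unpair n).1).2)
    rwa [h] at h3
  · have h : (fubini3 p q r).map (fun n => (Nat.unpair n).2) = r := by
      apply Ultrafilter.ext
      intro X
      rw [Ultrafilter.mem_map, mem_fubini3]
      simp only [mem_preimage, code, Nat.unpair_pair, setOf_const_mem]
      rfl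
    have h3 := tukeyLE_map (fubini3 p q r) (fun n => (Nat.unpair n).2)
    rwa [h] at h3

end Pool.Agent.Lib.MP_1c3dfa_lc
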