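import Pool.Agent.Lib.MP_1c3dfa_lc.Defs

set_option autoImplicit false

/-! # M2: separation and near coherence -/

namespace Pool.Agent.Lib.MP_1c3dfa_lc

open Set

theorem Sep.symm {p q : Ultrafilter ℕ} (h : Sep p q) : Sep q p := by
  intro g
  obtain ⟨A, hA, B, hB, hAB⟩ := h g
  exact ⟨B, hB, A, hA, fun b hb a ha => ⟨(hAB a ha b hb).2, (hAB a ha b hb).1⟩⟩

/-- Two different images are separated by sets. -/
theorem exists_disj_of_map_ne {p q : Ultrafilter ℕ} {ψ : ℕ → ℕ} (h : p.map ψ ≠ q.map ψ) :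
    ∃ A ∈ p, ∃ B ∈ q, ∀ a ∈ A, ∀ b ∈ B, ψ a ≠ ψ b := by
  have hS : ∃ S : Set ℕ, S ∈ p.map ψ ∧ S ∉ q.map ψ := by
    by_contra hc
    push Not at hc
    apply h
    refine Ultrafilter.ext fun S => ⟨hc S, fun hS => ?_⟩
    by_contra hS'
    have h1 : Sᶜ ∈ p.map ψ := Ultrafilter.compl_mem_iff_notMem.2 hS'
    exact Ultrafilter.compl_mem_iff_notMem.1 (hc _ h1) hS
  obtain ⟨S, hS1, hS2⟩ := hS
  have hS3 : Sᶜ ∈ q.map ψ := Ultrafilter.compl_mem_iff_notMem.2 hS2
  refine ⟨ψ ⁻¹' S, Ultrafilter.mem_map.1 hS1, ψ ⁻¹' Sᶜ, Ultrafilter.mem_map.1 hS3, ?_⟩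
  intro a ha b hb hab
  apply hb
  show ψ b ∈ S
  rw [← hab]
  exact ha

theorem sep_of_not_nearlyCoherent {p q : Ultrafilter ℕ} (h : ¬ NearlyCoherent p q) :
    Sep p q := by
  intro g
  -- a monotone majorant
  set G : ℕ → ℕ := fun m => (Finset.range (m + 1)).sup g + m + 1 with hG
  have hGm : Monotone G := by
    intro a b hab
    have : (Finset.range (a + 1)).sup g ≤ (Finset.range (b + 1)).sup g :=
      Finset.sup_mono (by intro x hx; simp only [Finset.mem_range] at hx ⊢; omega)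
    simp only [hG]
    omega
  have hGg : ∀ x, g x < G x := by
    intro x
    have : g x ≤ (Finset.range (x + 1)).sup g :=
      Finset.le_sup (f := g) (Finset.mem_range.2 (Nat.lt_succ_self x))
    simp only [hG]
    omega
  have hGx : ∀ x, x < G x := by
    intro x
    simp only [hG]
    omega
  set n : ℕ → ℕ := fun i => G^[i] 0 with hn
  have hn0 : n 0 = 0 := rfl
  have hns : ∀ i, n (i + 1) = G (n i) := fun i => Function.iterate_succ_apply' G i 0
  have hnlt : ∀ i, n i < n (i + 1) := fun i => by rw [hns]; exact hGx _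
  have hnmono : StrictMono n := strictMono_nat_of_lt_succ hnlt
  have hnid : ∀ i, i ≤ n i := fun i => hnmono.le_apply
  set φ : ℕ → ℕ := fun x => Nat.findGreatest (fun i => n i ≤ x) x with hφ
  have h1 : ∀ x, n (φ x) ≤ x := by
    intro x
    exact Nat.findGreatest_spec (P := fun i => n i ≤ x) (Nat.zero_le x)
      (by rw [hn0]; exact Nat.zero_le x)
  have h2 : ∀ x, x < n (φ x + 1) := by
    intro x
    by_contra hc
    push Not at hc
    have h3 : φ x + 1 ≤ x := (hnid _).trans hc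
    have h4 : φ x + 1 ≤ φ x := Nat.le_findGreatest (P := fun i => n i ≤ x) h3 hc
    omega
  have hφm : ∀ a b, a ≤ b → φ a ≤ φ b := by
    intro a b hab
    by_contra hc
    push Not at hc
    have h3 : n (φ b + 1) ≤ n (φ a) := hnmono.monotone hc
    have := h1 a
    have := h2 b
    omega
  have hfin : ∀ ψ : ℕ → ℕ, (∀ x, φ x ≤ 2 * ψ x + 1) → ∀ k, (ψ ⁻¹' {k}).Finite := by
    intro ψ hψ k
    apply (Set.finite_Iio (n (2 * k + 2))).subset
    intro x hx
    have hx' : ψ x = k := hx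
    have h3 := hψ x
    rw [hx'] at h3
    exact lt_of_lt_of_le (h2 x) (hnmono.monotone (by omega))
  have hne : ∀ ψ : ℕ → ℕ, (∀ x, φ x ≤ 2 * ψ x + 1) → p.map ψ ≠ q.map ψ := by
    intro ψ hψ heq
    exact h ⟨ψ, hfin ψ hψ, heq⟩
  obtain ⟨A0, hA0, B0, hB0, hAB0⟩ :=
    exists_disj_of_map_ne (hne (fun x => φ x / 2) (by intro x; show φ x ≤ 2 * (φ x / 2) + 1; omega))
  obtain ⟨A1, hA1, B1, hB1, hAB1⟩ :=
    exists_disj_of_map_ne (hne (fun x => (φ x + 1) / 2)
      (by intro x; show φ x ≤ 2 * ((φ x + 1) / 2) + 1; omega))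
  have key : ∀ a b, φ a / 2 ≠ φ b / 2 → (φ a + 1) / 2 ≠ (φ b + 1) / 2 → a ≤ b → g a < b := by
    intro a b h3 h4 hab
    have h5 := hφm a b hab
    have h6 : φ a + 2 ≤ φ b := by omega
    calc g a < G a := hGg a
      _ ≤ G (n (φ a + 1)) := hGm (h2 a).le
      _ = n (φ a + 2) := (hns _).symm
      _ ≤ n (φ b) := hnmono.monotone h6
      _ ≤ b := h1 b
  refine ⟨A0 ∩ A1, Filter.inter_mem hA0 hA1, B0 ∩ B1, Filter.inter_mem hB0 hB1, ?_⟩
  intro a ha b hb
  have h3 : φ a / 2 ≠ φ b / 2 := hAB0 a ha.1 b hb.1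
  have h4 : (φ a + 1) / 2 ≠ (φ b + 1) / 2 := hAB1 a ha.2 b hb.2
  exact ⟨key a b h3 h4, key b a h3.symm h4.symm⟩

theorem not_nearlyCoherent_of_sep {p q : Ultrafilter ℕ} (h : Sep p q) :
    ¬ NearlyCoherent p q := by
  rintro ⟨g, hg, heq⟩
  obtain ⟨A, hA, B, hB, hAB⟩ := h (fun x => (hg (g x)).toFinset.sup id)
  have hle : ∀ x y, g x = g y → y ≤ (hg (g x)).toFinset.sup id := by
    intro x y hxy
    refine Finset.le_sup (f := id) ?_
    rw [Set.Finite.mem_toFinset]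
    exact hxy.symm
  have h1 : g '' A ∈ p.map g := by
    rw [Ultrafilter.mem_map]
    exact Filter.mem_of_superset hA (subset_preimage_image _ _)
  have h2 : g '' B ∈ p.map g := by
    rw [heq, Ultrafilter.mem_map]
    exact Filter.mem_of_superset hB (subset_preimage_image _ _)
  obtain ⟨_, ⟨a, ha, rfl⟩, ⟨b, hb, hab⟩⟩ := Ultrafilter.nonempty_of_mem (Filter.inter_mem h1 h2)
  rcases le_total a b with hc | hc
  · have h3 := (hAB a ha b hb).1 hc
    have h4 := hle a b hab.symm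
    exact absurd h3 (not_lt.2 h4)
  · have h3 := (hAB a ha b hb).2 hc
    have h4 := hle b a hab
    exact absurd h3 (not_lt.2 h4)

end Pool.Agent.Lib.MP_1c3dfa_lc
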