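import Pool.Agent.Lib.MP_1c3dfa_lc.OrdUnion
import Pool.Agent.Lib.MP_1c3dfa_lc.Mono

set_option autoImplicit false

/-! # M6: three pairwise separated ultrafilters are never all Tukey below a stable ordered-union
ultrafilter -/

namespace Pool.Agent.Lib.MP_1c3dfa_lc

open Set

/-- `P * A`: the members of `P`, the members of `A`, and the unions `x ∪ t` with `x ∈ P`, `t ∈ A`
and `x < t`. -/
def star (P : Finset (Finset ℕ)) (A : Set (Finset ℕ)) : Set (Finset ℕ) :=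
  {s | s ∈ P ∨ s ∈ A ∨ ∃ x ∈ P, ∃ t ∈ A, Lt x t ∧ s = x ∪ t}

/-- What is forced by `P`. -/
def Fg (W : Ultrafilter (Finset ℕ)) (f : Set (Finset ℕ) → Set ℕ) (P : Finset (Finset ℕ)) :
    Set ℕ := {n | ∀ A ∈ W, n ∈ f (star P A)}

open Classical in
/-- `P ⊕ x`. -/
noncomputable def ext (P : Finset (Finset ℕ)) (x : Finset ℕ) : Finset (Finset ℕ) :=
  insert x (P ∪ (P.filter fun y => Lt y x).image fun y => y ∪ x)

theorem mem_ext {P : Finset (Finset ℕ)} {x s : Finset ℕ} :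
    s ∈ ext P x ↔ s = x ∨ s ∈ P ∨ ∃ y ∈ P, Lt y x ∧ s = y ∪ x := by
  classical
  simp only [ext, Finset.mem_insert, Finset.mem_union, Finset.mem_image, Finset.mem_filter]
  constructor
  · rintro (h | h | ⟨y, ⟨hy, h1⟩, rfl⟩)
    · exact Or.inl h
    · exact Or.inr (Or.inl h)
    · exact Or.inr (Or.inr ⟨y, hy, h1, rfl⟩)
  · rintro (h | h | ⟨y, hy, h1, rfl⟩)
    · exact Or.inl h
    · exact Or.inr (Or.inl h)
    · exact Or.inr (Or.inr ⟨y, ⟨hy, h1⟩, rfl⟩)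

theorem subset_ext (P : Finset (Finset ℕ)) (x : Finset ℕ) : P ⊆ ext P x :=
  fun _ h => mem_ext.2 (Or.inr (Or.inl h))

theorem self_mem_ext (P : Finset (Finset ℕ)) (x : Finset ℕ) : x ∈ ext P x :=
  mem_ext.2 (Or.inl rfl)

theorem star_mono {P Q : Finset (Finset ℕ)} {A B : Set (Finset ℕ)} (h1 : P ⊆ Q) (h2 : A ⊆ B) :
    star P A ⊆ star Q B := by
  rintro s (h | h | ⟨x, hx, t, ht, h3, rfl⟩)
  · exact Or.inl (h1 h)
  · exact Or.inr (Or.inl (h2 h))
  · exact Or.inr (Or.inr ⟨x, h1 hx, t, h2 ht, h3, rfl⟩)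

theorem star_empty (A : Set (Finset ℕ)) : star ∅ A = A := by
  ext s; simp [star]

section
variable {W : Ultrafilter (Finset ℕ)} {V : Ultrafilter ℕ} {f : Set (Finset ℕ) → Set ℕ}

theorem Fg_mono (hf : TMap W V f) {P Q : Finset (Finset ℕ)} (h : P ⊆ Q) :
    Fg W f P ⊆ Fg W f Q :=
  fun _ hn A hA => hf.mono _ _ (star_mono h Subset.rfl) (hn A hA)

theorem Fg_empty (hf : TMap W V f) (hV : Nonprincipal V) : Fg W f ∅ = ∅ := by
  rw [eq_empty_iff_forall_notMem]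
  intro n hn
  obtain ⟨A, hA, h⟩ := hf.cof {n}ᶜ (Ultrafilter.compl_mem_iff_notMem.2 (hV n))
  have h1 := hn A hA
  rw [star_empty] at h1
  exact h h1 rfl

/-- closure under unions of `s < t` -/
def Cl (S : Set (Finset ℕ)) : Prop := ∀ s ∈ S, ∀ t ∈ S, Lt s t → s ∪ t ∈ S

theorem Cl_FUs (X : ℕ → Finset ℕ) : Cl (FUs X) := fun _ hs _ ht _ => FUs_union hs ht

theorem Fg_subset_of_Cl (hf : TMap W V f) {P : Finset (Finset ℕ)} {S : Set (Finset ℕ)}
    (hS : S ∈ W) (hC : Cl S) (hP : ∀ s ∈ P, s ∈ S) : Fg W f P ⊆ f S := by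
  intro n hn
  refine hf.mono _ _ ?_ (hn S hS)
  rintro s (h | h | ⟨x, hx, t, ht, h3, rfl⟩)
  · exact hP s h
  · exact h
  · exact hC x (hP x hx) t ht h3

theorem ext_mem_of_Cl {P : Finset (Finset ℕ)} {S : Set (Finset ℕ)} (hC : Cl S)
    (hP : ∀ s ∈ P, s ∈ S) {x : Finset ℕ} (hx : x ∈ S) : ∀ s ∈ ext P x, s ∈ S := by
  intro s hs
  rcases mem_ext.1 hs with rfl | h | ⟨y, hy, h1, rfl⟩
  · exact hx
  · exact hP s h
  · exact hC y (hP y hy) x hx h1

/-- a member of `W` on which everything forced is finite -/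
theorem exists_finite_Fg (hf : TMap W V f) :
    ∃ A ∈ W, ∀ S ∈ W, Cl S → S ⊆ A → ∀ P : Finset (Finset ℕ), (∀ s ∈ P, s ∈ S) →
      (Fg W f P).Finite := by
  obtain ⟨E, hE, h⟩ := exists_not_superset V fun P : Finset (Finset ℕ) => Fg W f P
  obtain ⟨A, hA, hAE⟩ := hf.cof E hE
  refine ⟨A, hA, ?_⟩
  intro S hS hC hSA P hP
  by_contra hc
  exact h P hc ((Fg_subset_of_Cl hf hS hC hP).trans ((hf.mono _ _ hSA).trans hAE))

/-- the bound `gb` for the finite forced sets -/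
theorem exists_bound (W : Ultrafilter (Finset ℕ)) (f : Set (Finset ℕ) → Set ℕ) :
    ∃ gb : ℕ → ℕ, ∀ m, ∀ P : Finset (Finset ℕ), (∀ s ∈ P, ∀ a ∈ s, a ≤ m) →
      (Fg W f P).Finite → ∀ n ∈ Fg W f P, n ≤ gb m := by
  classical
  have : ∀ m : ℕ, ∃ b : ℕ, ∀ P : Finset (Finset ℕ), (∀ s ∈ P, ∀ a ∈ s, a ≤ m) →
      (Fg W f P).Finite → ∀ n ∈ Fg W f P, n ≤ b := by
    intro m
    let Q : Set (Finset (Finset ℕ)) :=
      {P | P ∈ (Finset.range (m + 1)).powerset.powerset ∧ (Fg W f P).Finite}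
    have hQ : Q.Finite := ((Finset.range (m + 1)).powerset.powerset.finite_toSet).subset
      fun P hP => hP.1
    have hfin : (⋃ P ∈ Q, Fg W f P).Finite := hQ.biUnion fun P hP => hP.2
    obtain ⟨b, hb⟩ := hfin.bddAbove
    refine ⟨b, ?_⟩
    intro P hP hPf n hn
    apply hb
    refine mem_biUnion (x := P) ?_ hn
    refine ⟨?_, hPf⟩
    rw [Finset.mem_powerset]
    intro s hs
    rw [Finset.mem_powerset]
    intro a ha
    rw [Finset.mem_range]
    have := hP s hs a ha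
    omega
  choose gb hgb using this
  exact ⟨gb, hgb⟩

/-- the continuity sets -/
theorem exists_contSets (W : Ultrafilter (Finset ℕ)) {V : Ultrafilter ℕ}
    {f : Set (Finset ℕ) → Set ℕ} (hf : TMap W V f) :
    ∃ A : ℕ → Set (Finset ℕ), (∀ k, A k ∈ W) ∧ ∀ k, ∀ P : Finset (Finset ℕ),
      (∀ s ∈ P, ∀ a ∈ s, a < k) → ∀ n < k, ∀ S : Set (Finset ℕ), S ⊆ star P (A k) →
        n ∈ f S → n ∈ Fg W f P := by
  classical
  have h1 : ∀ (P : Finset (Finset ℕ)) (n : ℕ), ∃ A ∈ W, n ∉ Fg W f P → n ∉ f (star P A) := by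
    intro P n
    by_cases h : n ∈ Fg W f P
    · exact ⟨univ, Filter.univ_mem, fun h' => absurd h h'⟩
    · have h' := h
      simp only [Fg, mem_ofPred_eq, not_forall] at h'
      obtain ⟨A, hA, hn⟩ := h'
      exact ⟨A, hA, fun _ => hn⟩
  choose B hB hB2 using h1
  refine ⟨fun k => ⋂ P ∈ (Finset.range k).powerset.powerset, ⋂ n ∈ Finset.range k, B P n, ?_, ?_⟩
  · intro k
    rw [Ultrafilter.mem_coe.symm, Filter.biInter_finset_mem]
    intro P _
    rw [Filter.biInter_finset_mem]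
    intro n _
    exact hB P n
  · intro k P hP n hn S hS hnS
    by_contra hc
    refine hB2 P n hc (hf.mono _ _ (hS.trans (star_mono (Finset.Subset.refl _) ?_)) hnS)
    intro t ht
    simp only [mem_iInter] at ht
    refine ht P ?_ n (Finset.mem_range.2 hn)
    rw [Finset.mem_powerset]
    intro s hs
    rw [Finset.mem_powerset]
    intro a ha
    exact Finset.mem_range.2 (hP s hs a ha)

end

/-! ### Homogeneous sequences -/

/-- The data of a homogeneous block sequence for the reduction `f`: `gb` bounds, `κ` separates. -/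
structure Hom (W : Ultrafilter (Finset ℕ)) (f : Set (Finset ℕ) → Set ℕ) (gb : ℕ → ℕ)
    (X : ℕ → Finset ℕ) (κ : ℕ → ℕ) (α : Finset (Finset ℕ) → Prop)
    (lam : Finset (Finset ℕ) → Prop) (rho : Finset (Finset ℕ) → Prop) : Prop where
  block : Block X
  mem : FUs X ∈ W
  kmono : Monotone κ
  kunb : ∀ k, ∃ m, k ≤ κ m
  /-- upper bound -/
  ub : ∀ m, ∀ P : Finset (Finset ℕ), (∀ s ∈ P, s ∈ FUs X) → (∀ s ∈ P, ∀ a ∈ s, a ≤ m) →
    ∀ n ∈ Fg W f P, n ≤ gb m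
  /-- gap -/
  gap : ∀ s ∈ FUs X, ∀ t ∈ FUs X, Lt s t → mx s < κ (mn t) ∧ gb (mx s) < κ (mn t)
  /-- continuity -/
  cont : ∀ z ∈ FUs X, ∀ P : Finset (Finset ℕ), (∀ s ∈ P, ∀ a ∈ s, a < κ (mn z)) →
    ∀ n < κ (mn z), ∀ S : Set (Finset ℕ), S ⊆ star P {t | t ∈ FUs X ∧ mn z ≤ mn t} →
      n ∈ f S → n ∈ Fg W f P
  homA : ∀ P : Finset (Finset ℕ), ∀ x ∈ FUs X, (∀ y ∈ P, y ∈ FUs X ∧ Lt y x) →
    (Fg W f (ext P x) ≠ Fg W f P ↔ α P)
  homL : ∀ P : Finset (Finset ℕ), ∀ s ∈ FUs X, ∀ t ∈ FUs X, (∀ y ∈ P, y ∈ FUs X ∧ Lt y s) →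
    Lt s t → ((∃ n ∈ Fg W f (ext P (s ∪ t)), n ∉ Fg W f P ∧ n ≤ gb (mx s)) ↔ lam P)
  homR : ∀ P : Finset (Finset ℕ), ∀ s ∈ FUs X, ∀ t ∈ FUs X, (∀ y ∈ P, y ∈ FUs X ∧ Lt y s) →
    Lt s t → ((∃ n ∈ Fg W f (ext P (s ∪ t)), n ∉ Fg W f P ∧ gb (mx s) < n) ↔ rho P)

/-- Existence of homogeneous sequences for three reductions simultaneously. -/
theorem exists_hom {W : Ultrafilter (Finset ℕ)} (hW : OU W) (hS : Stable W)
    (V : Fin 3 → Ultrafilter ℕ) (f : Fin 3 → Set (Finset ℕ) → Set ℕ)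
    (hf : ∀ i, TMap W (V i) (f i)) :
    ∃ (gb : ℕ → ℕ) (X : ℕ → Finset ℕ) (κ : ℕ → ℕ) (α lam rho : Fin 3 → Finset (Finset ℕ) → Prop),
      ∀ i, Hom W (f i) gb X κ (α i) (lam i) (rho i) := by
  classical
  choose gb' hgb' using fun i => exists_bound W (f i)
  let gb : ℕ → ℕ := fun m => ∑ i, gb' i m
  have hgb : ∀ i m, gb' i m ≤ gb m := fun i m =>
    Finset.single_le_sum (f := fun i => gb' i m) (fun _ _ => Nat.zero_le _) (Finset.mem_univ i)
  choose A0 hA0 hA0' using fun i => exists_finite_Fg (hf i)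
  choose Ac hAc hAc' using fun i => exists_contSets W (hf i)
  -- generic truth values
  let gen1 : (Finset ℕ → Prop) → Prop := fun φ => ∀ᶠ x in (W : Filter (Finset ℕ)), φ x
  have hgen : ∀ φ : Finset ℕ → Prop, {x | φ x ↔ gen1 φ} ∈ W := by
    intro φ
    by_cases h : gen1 φ
    · refine Filter.mem_of_superset h ?_
      intro x hx
      exact ⟨fun _ => h, fun _ => hx⟩
    · have h' : {x | ¬ φ x} ∈ W := by
        have := Ultrafilter.compl_mem_iff_notMem.2 h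
        exact this
      refine Filter.mem_of_superset h' ?_
      intro x hx
      exact ⟨fun h1 => absurd h1 hx, fun h1 => absurd h1 h⟩
  let φA : Fin 3 → Finset (Finset ℕ) → Finset ℕ → Prop := fun i P x =>
    Fg W (f i) (ext P x) ≠ Fg W (f i) P
  let φL : Fin 3 → Finset (Finset ℕ) → Finset ℕ → Finset ℕ → Prop := fun i P s t =>
    ∃ n ∈ Fg W (f i) (ext P (s ∪ t)), n ∉ Fg W (f i) P ∧ n ≤ gb (mx s)
  let φR : Fin 3 → Finset (Finset ℕ) → Finset ℕ → Finset ℕ → Prop := fun i P s t =>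
    ∃ n ∈ Fg W (f i) (ext P (s ∪ t)), n ∉ Fg W (f i) P ∧ gb (mx s) < n
  let α : Fin 3 → Finset (Finset ℕ) → Prop := fun i P => gen1 (φA i P)
  let L1 : Fin 3 → Finset (Finset ℕ) → Finset ℕ → Prop := fun i P s => gen1 (φL i P s)
  let R1 : Fin 3 → Finset (Finset ℕ) → Finset ℕ → Prop := fun i P s => gen1 (φR i P s)
  let lam : Fin 3 → Finset (Finset ℕ) → Prop := fun i P => gen1 (L1 i P)
  let rho : Fin 3 → Finset (Finset ℕ) → Prop := fun i P => gen1 (R1 i P)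
  let B : ℕ → Set (Finset ℕ) := fun k =>
    ⋂ i : Fin 3, (Ac i k ∩ ⋂ P ∈ (Finset.range k).powerset.powerset,
      (({x | φA i P x ↔ α i P} ∩ ({x | L1 i P x ↔ lam i P} ∩ {x | R1 i P x ↔ rho i P})) ∩
        ⋂ s ∈ (Finset.range k).powerset,
          ({t | φL i P s t ↔ L1 i P s} ∩ {t | φR i P s t ↔ R1 i P s})))
  have hB : ∀ k, B k ∈ W := by
    intro k
    have hB1 : ∀ i : Fin 3, (Ac i k ∩ ⋂ P ∈ (Finset.range k).powerset.powerset,
      (({x | φA i P x ↔ α i P} ∩ ({x | L1 i P x ↔ lam i P} ∩ {x | R1 i P x ↔ rho i P})) ∩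
        ⋂ s ∈ (Finset.range k).powerset,
          ({t | φL i P s t ↔ L1 i P s} ∩ {t | φR i P s t ↔ R1 i P s}))) ∈ W := by
      intro i
      refine Filter.inter_mem (hAc i k) ?_
      rw [Filter.biInter_finset_mem]
      intro P _
      refine Filter.inter_mem (Filter.inter_mem (hgen _)
        (Filter.inter_mem (hgen _) (hgen _))) ?_
      rw [Filter.biInter_finset_mem]
      intro s _
      exact Filter.inter_mem (hgen _) (hgen _)
    exact Filter.iInter_mem.2 hB1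
  have hC : (⋂ i : Fin 3, A0 i) ∈ W := Filter.iInter_mem.2 hA0
  obtain ⟨X, κ, hX, hXW, hXC, hκ, hκu, hXB, hXG⟩ :=
    ou_diag hW hS (fun m => max m (gb m)) hC B hB
  have hXA : ∀ i, FUs X ⊆ A0 i := fun i => hXC.trans (iInter_subset _ i)
  -- unpack membership in `B`
  have hmemB : ∀ i, ∀ t ∈ FUs X, ∀ k ≤ κ (mn t), t ∈ Ac i k ∧
      ∀ P : Finset (Finset ℕ), (∀ s ∈ P, ∀ a ∈ s, a < k) →
        (φA i P t ↔ α i P) ∧ (L1 i P t ↔ lam i P) ∧ (R1 i P t ↔ rho i P) ∧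
        ∀ s : Finset ℕ, (∀ a ∈ s, a < k) →
          (φL i P s t ↔ L1 i P s) ∧ (φR i P s t ↔ R1 i P s) := by
    intro i t ht k hk
    have h1 := hXB t ht k hk
    simp only [B, mem_iInter] at h1
    have h2 := h1 i
    refine ⟨h2.1, ?_⟩
    intro P hP
    have h3 := h2.2
    simp only [mem_iInter] at h3
    have h4 := h3 P (by
      rw [Finset.mem_powerset]
      intro s hs
      rw [Finset.mem_powerset]
      intro a ha
      exact Finset.mem_range.2 (hP s hs a ha))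
    refine ⟨h4.1.1, h4.1.2.1, h4.1.2.2, ?_⟩
    intro s hs
    have h5 := h4.2
    simp only [mem_iInter] at h5
    exact h5 s (by
      rw [Finset.mem_powerset]
      intro a ha
      exact Finset.mem_range.2 (hs a ha))
  have hlt : ∀ y ∈ FUs X, ∀ x ∈ FUs X, Lt y x → ∀ a ∈ y, a < κ (mn x) := by
    intro y hy x hx hyx a ha
    have h1 := hXG y hy x hx hyx
    exact lt_of_le_of_lt ((le_mx ha).trans (le_max_left _ _)) h1
  refine ⟨gb, X, κ, α, lam, rho, ?_⟩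
  intro i
  refine ⟨hX, hXW, hκ, hκu, ?_, ?_, ?_, ?_, ?_, ?_⟩
  · intro m P hP hPm n hn
    exact (hgb' i m P hPm (hA0' i _ hXW (Cl_FUs X) (hXA i) P hP) n hn).trans (hgb i m)
  · intro s hs t ht hst
    have h1 := hXG s hs t ht hst
    exact ⟨lt_of_le_of_lt (le_max_left _ _) h1, lt_of_le_of_lt (le_max_right _ _) h1⟩
  · intro z hz P hP n hn S hSS hnS
    refine hAc' i (κ (mn z)) P hP n hn S (hSS.trans (star_mono (Finset.Subset.refl _) ?_)) hnS
    rintro t ⟨ht, hzt⟩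
    exact (hmemB i t ht (κ (mn z)) (hκ hzt)).1
  · intro P x hx hP
    have h1 := (hmemB i x hx (κ (mn x)) le_rfl).2 P
      (fun s hs a ha => hlt s (hP s hs).1 x hx (hP s hs).2 a ha)
    exact h1.1
  · intro P s hs t ht hP hst
    have hPs : ∀ y ∈ P, ∀ a ∈ y, a < κ (mn s) :=
      fun y hy a ha => hlt y (hP y hy).1 s hs (hP y hy).2 a ha
    have h1 := (hmemB i s hs (κ (mn s)) le_rfl).2 P hPs
    have hmn : mn s ≤ mn t :=
      (hst.mn_lt (hX.nonempty_of_mem hs) (hX.nonempty_of_mem ht)).le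
    have h2 := (hmemB i t ht (κ (mn t)) le_rfl).2 P
      (fun y hy a ha => (hPs y hy a ha).trans_le (hκ hmn))
    have h3 := h2.2.2.2 s (fun a ha => hlt s hs t ht hst a ha)
    exact h3.1.trans h1.2.1
  · intro P s hs t ht hP hst
    have hPs : ∀ y ∈ P, ∀ a ∈ y, a < κ (mn s) :=
      fun y hy a ha => hlt y (hP y hy).1 s hs (hP y hy).2 a ha
    have h1 := (hmemB i s hs (κ (mn s)) le_rfl).2 P hPs
    have hmn : mn s ≤ mn t :=
      (hst.mn_lt (hX.nonempty_of_mem hs) (hX.nonempty_of_mem ht)).le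
    have h2 := (hmemB i t ht (κ (mn t)) le_rfl).2 P
      (fun y hy a ha => (hPs y hy a ha).trans_le (hκ hmn))
    have h3 := h2.2.2.2 s (fun a ha => hlt s hs t ht hst a ha)
    exact h3.2.trans h1.2.2.1

section
variable {W : Ultrafilter (Finset ℕ)} {V : Ultrafilter ℕ} {f : Set (Finset ℕ) → Set ℕ}
variable {gb κ : ℕ → ℕ} {X : ℕ → Finset ℕ} {α lam rho : Finset (Finset ℕ) → Prop}

/-- members of `FUs X` beyond a given one -/
theorem Hom.tail_mem (hW : OU W) (h : Hom W f gb X κ α lam rho) (x : Finset ℕ) :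
    {t | t ∈ FUs X ∧ Lt x t} ∈ W := by
  refine Filter.mem_of_superset (Filter.inter_mem h.mem (ou_min_gt hW (mx x))) ?_
  rintro t ⟨h1, h2, h3⟩
  refine ⟨h1, ?_⟩
  intro a ha b hb
  exact lt_of_le_of_lt (le_mx ha) (h3 b hb)

/-- Lower bound: what is newly forced by `x` is at least `κ (mn x)`. -/
theorem Hom.lb (hW : OU W) (h : Hom W f gb X κ α lam rho)
    {P : Finset (Finset ℕ)} {x : Finset ℕ} (hx : x ∈ FUs X)
    (hP : ∀ y ∈ P, y ∈ FUs X ∧ Lt y x) {n : ℕ} (hn : n ∈ Fg W f (ext P x))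
    (hn' : n ∉ Fg W f P) : κ (mn x) ≤ n := by
  by_contra hc
  rw [not_le] at hc
  apply hn'
  have hxne := h.block.nonempty_of_mem hx
  have h1 := hn _ (h.tail_mem hW x)
  refine h.cont x hx P ?_ n hc _ ?_ h1
  · intro y hy a ha
    obtain ⟨h2, h3⟩ := hP y hy
    exact lt_of_le_of_lt (le_mx ha) (h.gap y h2 x hx h3).1
  · rintro s (hs | ⟨hs, hs'⟩ | ⟨x', hx', t, ⟨ht, hxt⟩, h3, rfl⟩)
    · rcases mem_ext.1 hs with rfl | hs | ⟨y, hy, h2, rfl⟩
      · exact Or.inr (Or.inl ⟨hx, le_rfl⟩)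
      · exact Or.inl hs
      · exact Or.inr (Or.inr ⟨y, hy, x, ⟨hx, le_rfl⟩, h2, rfl⟩)
    · exact Or.inr (Or.inl ⟨hs, (hs'.mn_lt hxne (h.block.nonempty_of_mem hs)).le⟩)
    · have htne := h.block.nonempty_of_mem ht
      rcases mem_ext.1 hx' with rfl | hs | ⟨y, hy, h2, rfl⟩
      · exact Or.inr (Or.inl ⟨FUs_union hx ht, (mn_union_of_lt h3 hxne).ge⟩)
      · exact Or.inr (Or.inr ⟨x', hs, t, ⟨ht, (hxt.mn_lt hxne htne).le⟩, h3, rfl⟩)
      · refine Or.inr (Or.inr ⟨y, hy, x ∪ t, ⟨FUs_union hx ht, (mn_union_of_lt hxt hxne).ge⟩, ?_, ?_⟩)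
        · exact h2.union_right (h3.mono Finset.subset_union_left (Finset.Subset.refl _))
        · rw [Finset.union_assoc]

theorem ext_union_subset {P : Finset (Finset ℕ)} {s t : Finset ℕ} (hst : Lt s t)
    (hP : ∀ y ∈ P, Lt y s) (hs : s.Nonempty) : ext P (s ∪ t) ⊆ ext (ext P s) t := by
  intro u hu
  rcases mem_ext.1 hu with rfl | h | ⟨y, hy, h1, rfl⟩
  · exact mem_ext.2 (Or.inr (Or.inr ⟨s, self_mem_ext P s, hst, rfl⟩))
  · exact subset_ext _ _ (subset_ext _ _ h)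
  · refine mem_ext.2 (Or.inr (Or.inr ⟨y ∪ s, mem_ext.2 (Or.inr (Or.inr ⟨y, hy, hP y hy, rfl⟩)),
      ?_, ?_⟩))
    · exact ((hP y hy).trans hst hs).union_left hst
    · rw [Finset.union_assoc]

theorem ext_mem_le {P : Finset (Finset ℕ)} {x : Finset ℕ} (hx : x.Nonempty)
    (hP : ∀ y ∈ P, Lt y x) : ∀ s ∈ ext P x, ∀ a ∈ s, a ≤ mx x := by
  intro s hs a ha
  rcases mem_ext.1 hs with rfl | h | ⟨y, hy, h1, rfl⟩
  · exact le_mx ha
  · exact (hP s h a ha _ (mx_mem hx)).le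
  · rcases Finset.mem_union.1 ha with h2 | h2
    · exact (hP y hy a h2 _ (mx_mem hx)).le
    · exact le_mx h2

/-- Upper bound for what is forced by `P ⊕ x`. -/
theorem Hom.ub' (h : Hom W f gb X κ α lam rho)
    {P : Finset (Finset ℕ)} {x : Finset ℕ} (hx : x ∈ FUs X)
    (hP : ∀ y ∈ P, y ∈ FUs X ∧ Lt y x) {n : ℕ} (hn : n ∈ Fg W f (ext P x)) : n ≤ gb (mx x) :=
  h.ub (mx x) (ext P x) (ext_mem_of_Cl (Cl_FUs X) (fun s hs => (hP s hs).1) hx)
    (ext_mem_le (h.block.nonempty_of_mem hx) fun y hy => (hP y hy).2) n hn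

/-- dichotomy -/
theorem Hom.dich (hW : OU W) (hf : TMap W V f) (h : Hom W f gb X κ α lam rho)
    {P : Finset (Finset ℕ)} {s t : Finset ℕ} (hs : s ∈ FUs X) (ht : t ∈ FUs X) (hst : Lt s t)
    (hP : ∀ y ∈ P, y ∈ FUs X ∧ Lt y s) {n : ℕ} (hn : n ∈ Fg W f (ext P (s ∪ t)))
    (hgt : gb (mx s) < n) : κ (mn t) ≤ n := by
  have hsne := h.block.nonempty_of_mem hs
  have h1 := Fg_mono hf (ext_union_subset hst (fun y hy => (hP y hy).2) hsne) hn
  refine h.lb hW ht (P := ext P s) ?_ h1 ?_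
  · intro y hy
    refine ⟨ext_mem_of_Cl (Cl_FUs X) (fun s hs => (hP s hs).1) hs y hy, ?_⟩
    intro a ha b hb
    exact lt_of_le_of_lt (ext_mem_le hsne (fun y hy => (hP y hy).2) y hy a ha)
      (hst _ (mx_mem hsne) b hb)
  · intro hc
    have := h.ub' hs hP hc
    omega

/-- The window phenomenon, left version. -/
theorem Hom.left (hW : OU W) (h : Hom W f gb X κ α lam rho)
    {P : Finset (Finset ℕ)} {s t : Finset ℕ} (hs : s ∈ FUs X) (ht : t ∈ FUs X) (hst : Lt s t)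
    (hP : ∀ y ∈ P, y ∈ FUs X ∧ Lt y s) (hl : lam P) :
    ∃ n ∈ Fg W f (ext P (s ∪ t)), κ (mn s) ≤ n ∧ n ≤ gb (mx s) := by
  have hsne := h.block.nonempty_of_mem hs
  obtain ⟨n, hn, hn1, hn2⟩ := (h.homL P s hs t ht hP hst).2 hl
  refine ⟨n, hn, ?_, hn2⟩
  have h1 := h.lb hW (FUs_union hs ht) (P := P) (x := s ∪ t) ?_ hn hn1
  · rwa [mn_union_of_lt hst hsne] at h1
  · intro y hy
    exact ⟨(hP y hy).1, (hP y hy).2.union_right ((hP y hy).2.trans hst hsne)⟩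

/-- The window phenomenon, right version. -/
theorem Hom.right (hW : OU W) (hf : TMap W V f) (h : Hom W f gb X κ α lam rho)
    {P : Finset (Finset ℕ)} {s t : Finset ℕ} (hs : s ∈ FUs X) (ht : t ∈ FUs X) (hst : Lt s t)
    (hP : ∀ y ∈ P, y ∈ FUs X ∧ Lt y s) (hl : rho P) :
    ∃ n ∈ Fg W f (ext P (s ∪ t)), κ (mn t) ≤ n ∧ n ≤ gb (mx t) := by
  have hsne := h.block.nonempty_of_mem hs
  have htne := h.block.nonempty_of_mem ht
  obtain ⟨n, hn, hn1, hn2⟩ := (h.homR P s hs t ht hP hst).2 hl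
  refine ⟨n, hn, h.dich hW hf hs ht hst hP hn hn2, ?_⟩
  have h1 := h.ub' (FUs_union hs ht) (P := P) (x := s ∪ t) ?_ hn
  · rwa [mx_union_of_lt hst htne] at h1
  · intro y hy
    exact ⟨(hP y hy).1, (hP y hy).2.union_right ((hP y hy).2.trans hst hsne)⟩

end

/-! ### Prefix families -/

/-- The family of unions of the first `l` blocks. -/
noncomputable def pref (Z : ℕ → Finset ℕ) : ℕ → Finset (Finset ℕ)
  | 0 => ∅
  | l + 1 => ext (pref Z l) (Z l)

theorem pref_mem {Z : ℕ → Finset ℕ} (l : ℕ) : ∀ y ∈ pref Z l, y ∈ FUs Z := by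
  induction l with
  | zero => intro y hy; simp [pref] at hy
  | succ l ih => exact ext_mem_of_Cl (Cl_FUs Z) ih (Block.mem_FUs l)

theorem pref_lt {Z : ℕ → Finset ℕ} (hZ : Block Z) (l : ℕ) :
    ∀ y ∈ pref Z l, ∀ m, l ≤ m → Lt y (Z m) := by
  induction l with
  | zero => intro y hy; simp [pref] at hy
  | succ l ih =>
    intro y hy m hm
    have hlm : Lt (Z l) (Z m) := hZ.lt_of_lt (by omega)
    rcases mem_ext.1 hy with rfl | h | ⟨x, hx, h1, rfl⟩
    · exact hlm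
    · exact ih y h m (by omega)
    · exact (ih x hx m (by omega)).union_left hlm

/-- unions of blocks with index at least `l` -/
def tailU (Z : ℕ → Finset ℕ) (l : ℕ) : Set (Finset ℕ) :=
  {s | ∃ I : Finset ℕ, I.Nonempty ∧ (∀ i ∈ I, l ≤ i) ∧ s = I.biUnion Z}

theorem tailU_zero (Z : ℕ → Finset ℕ) : tailU Z 0 = FUs Z := by
  ext s
  constructor
  · rintro ⟨I, h1, _, h2⟩; exact ⟨I, h1, h2⟩
  · rintro ⟨I, h1, h2⟩; exact ⟨I, h1, fun _ _ => Nat.zero_le _, h2⟩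

theorem tailU_step {Z : ℕ → Finset ℕ} (hZ : Block Z) {l : ℕ} {s : Finset ℕ}
    (hs : s ∈ tailU Z l) : s ∈ tailU Z (l + 1) ∨ s = Z l ∨
      ∃ u ∈ tailU Z (l + 1), Lt (Z l) u ∧ s = Z l ∪ u := by
  classical
  obtain ⟨I, hI, hIl, rfl⟩ := hs
  by_cases hl : l ∈ I
  · right
    by_cases hI2 : (I.erase l).Nonempty
    · right
      refine ⟨(I.erase l).biUnion Z, ⟨I.erase l, hI2, ?_, rfl⟩, ?_, ?_⟩
      · intro i hi
        have h1 := hIl i (Finset.mem_of_mem_erase hi)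
        have h2 := Finset.ne_of_mem_erase hi
        omega
      · intro a ha b hb
        obtain ⟨i, hi, hb⟩ := Finset.mem_biUnion.1 hb
        have h1 := hIl i (Finset.mem_of_mem_erase hi)
        have h2 := Finset.ne_of_mem_erase hi
        exact hZ.lt_of_lt (show l < i by omega) a ha b hb
      · conv_lhs => rw [← Finset.insert_erase hl]
        rw [Finset.biUnion_insert]
    · left
      rw [Finset.not_nonempty_iff_eq_empty] at hI2
      have : I = {l} := by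
        rw [← Finset.insert_erase hl, hI2]; rfl
      rw [this, Finset.singleton_biUnion]
  · left
    refine ⟨I, hI, ?_, rfl⟩
    intro i hi
    have h1 := hIl i hi
    have h2 : i ≠ l := fun h => hl (h ▸ hi)
    omega

theorem star_step {P : Finset (Finset ℕ)} {z : Finset ℕ} {A B : Set (Finset ℕ)}
    (hz : z.Nonempty) (hB : ∀ s ∈ B, s ∈ A ∨ s = z ∨ ∃ u ∈ A, Lt z u ∧ s = z ∪ u) :
    star P B ⊆ star (ext P z) A := by
  have hBz : ∀ s ∈ B, s ∈ star (ext P z) A := by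
    intro s hs
    rcases hB s hs with h | rfl | ⟨u, hu, h1, rfl⟩
    · exact Or.inr (Or.inl h)
    · exact Or.inl (self_mem_ext _ _)
    · exact Or.inr (Or.inr ⟨z, self_mem_ext _ _, u, hu, h1, rfl⟩)
  rintro s (h | h | ⟨x, hx, t, ht, h3, rfl⟩)
  · exact Or.inl (subset_ext _ _ h)
  · exact hBz s h
  · rcases hB t ht with h | rfl | ⟨u, hu, h1, rfl⟩
    · exact Or.inr (Or.inr ⟨x, subset_ext _ _ hx, t, h, h3, rfl⟩)
    · exact Or.inl (mem_ext.2 (Or.inr (Or.inr ⟨x, hx, h3, rfl⟩)))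
    · have hxz : Lt x z := h3.mono (Finset.Subset.refl _) Finset.subset_union_left
      refine Or.inr (Or.inr ⟨x ∪ z, mem_ext.2 (Or.inr (Or.inr ⟨x, hx, hxz, rfl⟩)), u, hu, ?_, ?_⟩)
      · exact (hxz.trans h1 hz).union_left h1
      · rw [Finset.union_assoc]

theorem FUs_subset_star {Z : ℕ → Finset ℕ} (hZ : Block Z) (l : ℕ) :
    FUs Z ⊆ star (pref Z l) (tailU Z l) := by
  induction l with
  | zero => rw [pref, star_empty, tailU_zero]
  | succ l ih => exact ih.trans (star_step (hZ.ne l) fun s hs => tailU_step hZ hs)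

theorem tailU_mn {Z : ℕ → Finset ℕ} (hZ : Block Z) {l : ℕ} {t : Finset ℕ} (ht : t ∈ tailU Z l) :
    mn (Z l) ≤ mn t := by
  obtain ⟨I, ⟨i, hi⟩, hIl, rfl⟩ := ht
  have hne : (I.biUnion Z).Nonempty := by
    obtain ⟨a, ha⟩ := hZ.ne i
    exact ⟨a, Finset.mem_biUnion.2 ⟨i, hi, ha⟩⟩
  rw [le_mn_iff hne]
  intro a ha
  obtain ⟨j, hj, ha⟩ := Finset.mem_biUnion.1 ha
  exact (hZ.mn_mono.monotone (hIl j hj)).trans (mn_le ha)

/-! ### The main argument -/

section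
variable {W : Ultrafilter (Finset ℕ)} {V : Ultrafilter ℕ} {f : Set (Finset ℕ) → Set ℕ}
variable {gb κ : ℕ → ℕ} {X Z : ℕ → Finset ℕ} {α lam rho : Finset (Finset ℕ) → Prop}

/-- `κ (mn (Z l))` is unbounded -/
theorem Hom.exists_l (h : Hom W f gb X κ α lam rho) (hZ : Block Z) (n : ℕ) :
    ∃ l, ∀ m, l ≤ m → n < κ (mn (Z m)) := by
  obtain ⟨l, hl⟩ := h.kunb (n + 1)
  refine ⟨l, ?_⟩
  intro m hm
  have h1 := h.kmono (hm.trans (hZ.le_mn m))
  omega

theorem Hom.claim1 (hf : TMap W V f) (hV : Nonprincipal V) (h : Hom W f gb X κ α lam rho)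
    (hZ : Block Z) (hZW : FUs Z ∈ W) (hZX : FUs Z ⊆ FUs X) : ∃ l, α (pref Z l) := by
  by_contra hc
  push Not at hc
  have h1 : ∀ l, Fg W f (pref Z l) = ∅ := by
    intro l
    induction l with
    | zero => exact Fg_empty hf hV
    | succ l ih =>
      have h2 := h.homA (pref Z l) (Z l) (hZX (Block.mem_FUs l))
        (fun y hy => ⟨hZX (pref_mem l y hy), pref_lt hZ l y hy l le_rfl⟩)
      have h3 : Fg W f (ext (pref Z l) (Z l)) = Fg W f (pref Z l) := by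
        by_contra h4
        exact hc l (h2.1 h4)
      show Fg W f (ext (pref Z l) (Z l)) = ∅
      rw [h3, ih]
  obtain ⟨n, hn⟩ : (f (FUs Z)).Nonempty := V.neBot.nonempty_of_mem (hf.mem _ hZW)
  obtain ⟨l, hl⟩ := h.exists_l hZ n
  have h2 : n ∈ Fg W f (pref Z l) := by
    refine h.cont (Z l) (hZX (Block.mem_FUs l)) (pref Z l) ?_ n (hl l le_rfl) (FUs Z) ?_ hn
    · intro y hy a ha
      exact lt_of_le_of_lt (le_mx ha) (h.gap y (hZX (pref_mem l y hy)) (Z l)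
        (hZX (Block.mem_FUs l)) (pref_lt hZ l y hy l le_rfl)).1
    · refine (FUs_subset_star hZ l).trans (star_mono (Finset.Subset.refl _) ?_)
      intro t ht
      refine ⟨hZX ?_, tailU_mn hZ ht⟩
      obtain ⟨I, h1, _, h2⟩ := ht
      exact ⟨I, h1, h2⟩
  rw [h1 l] at h2
  exact h2

theorem Hom.claim2 (hW : OU W) (hf : TMap W V f) (h : Hom W f gb X κ α lam rho)
    (hZ : Block Z) (hZX : FUs Z ⊆ FUs X) {l : ℕ} (hl : α (pref Z l)) : α (pref Z (l + 1)) := by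
  by_contra hc
  have hZl : ∀ m, Z m ∈ FUs X := fun m => hZX (Block.mem_FUs m)
  have hlt := hZ.lt l
  have h0 := h.homA (pref Z l) (Z (l + 1)) (hZl _)
    (fun y hy => ⟨hZX (pref_mem l y hy), pref_lt hZ l y hy _ (by omega)⟩)
  have h1 := h0.2 hl
  have h2 : ∃ n ∈ Fg W f (ext (pref Z l) (Z (l + 1))), n ∉ Fg W f (pref Z l) := by
    by_contra h3
    push Not at h3
    exact h1 (Subset.antisymm h3 (Fg_mono hf (subset_ext _ _)))
  obtain ⟨n, hn, hn'⟩ := h2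
  have h3 := h.lb hW (hZl (l + 1)) (P := pref Z l)
    (fun y hy => ⟨hZX (pref_mem l y hy), pref_lt hZ l y hy _ (by omega)⟩) hn hn'
  have h4 := h.homA (pref Z (l + 1)) (Z (l + 1)) (hZl _)
    (fun y hy => ⟨hZX (pref_mem _ y hy), pref_lt hZ _ y hy _ (by omega)⟩)
  have h5 : Fg W f (ext (pref Z (l + 1)) (Z (l + 1))) = Fg W f (pref Z (l + 1)) := by
    by_contra h6
    exact hc (h4.1 h6)
  have h6 : n ∈ Fg W f (ext (pref Z (l + 1)) (Z (l + 1))) := by
    refine Fg_mono hf ?_ hn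
    intro s hs
    rcases mem_ext.1 hs with rfl | h7 | ⟨y, hy, h8, rfl⟩
    · exact self_mem_ext _ _
    · exact subset_ext _ _ (subset_ext _ _ h7)
    · exact mem_ext.2 (Or.inr (Or.inr ⟨y, subset_ext _ _ hy, h8, rfl⟩))
  rw [h5] at h6
  have h7 : n ≤ gb (mx (Z l)) := h.ub' (hZl l) (P := pref Z l)
    (fun y hy => ⟨hZX (pref_mem l y hy), pref_lt hZ l y hy _ le_rfl⟩) h6
  have h8 := (h.gap (Z l) (hZl l) (Z (l + 1)) (hZl _) hlt).2
  omega

theorem Hom.claim3 (hW : OU W) (hf : TMap W V f) (hV : Nonprincipal V)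
    (h : Hom W f gb X κ α lam rho)
    (hZ : Block Z) (hZW : FUs Z ∈ W) (hZX : FUs Z ⊆ FUs X) :
    ∃ l, ∀ m, l ≤ m → (lam (pref Z m) ∨ rho (pref Z m)) := by
  obtain ⟨l, hl⟩ := h.claim1 hf hV hZ hZW hZX
  refine ⟨l, ?_⟩
  intro m hm
  have hα : α (pref Z m) := by
    induction m, hm using Nat.le_induction with
    | base => exact hl
    | succ m hm ih => exact h.claim2 hW hf hZ hZX ih
  have hZl : ∀ m, Z m ∈ FUs X := fun m => hZX (Block.mem_FUs m)
  have hP : ∀ y ∈ pref Z m, y ∈ FUs X ∧ Lt y (Z m) :=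
    fun y hy => ⟨hZX (pref_mem _ y hy), pref_lt hZ _ y hy _ le_rfl⟩
  have hP' : ∀ y ∈ pref Z m, y ∈ FUs X ∧ Lt y (Z m ∪ Z (m + 1)) :=
    fun y hy => ⟨hZX (pref_mem _ y hy), (pref_lt hZ _ y hy _ le_rfl).union_right
      (pref_lt hZ _ y hy _ (by omega))⟩
  have h1 := (h.homA (pref Z m) (Z m ∪ Z (m + 1)) (FUs_union (hZl _) (hZl _)) hP').2 hα
  have h2 : ∃ n ∈ Fg W f (ext (pref Z m) (Z m ∪ Z (m + 1))), n ∉ Fg W f (pref Z m) := by
    by_contra h3
    push Not at h3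
    exact h1 (Subset.antisymm h3 (Fg_mono hf (subset_ext _ _)))
  obtain ⟨n, hn, hn'⟩ := h2
  rcases le_or_gt n (gb (mx (Z m))) with h3 | h3
  · left
    exact (h.homL (pref Z m) (Z m) (hZl _) (Z (m + 1)) (hZl _) hP (hZ.lt m)).1 ⟨n, hn, hn', h3⟩
  · right
    exact (h.homR (pref Z m) (Z m) (hZl _) (Z (m + 1)) (hZl _) hP (hZ.lt m)).1 ⟨n, hn, hn', h3⟩

end

/-- first and last blocks -/
theorem exists_first_last {X : ℕ → Finset ℕ} (hX : Block X) {s t : Finset ℕ} (hs : s ∈ FUs X)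
    (ht : t ∈ FUs X) (hst : Lt s t) :
    (∃ j, ∃ u ∈ FUs X, Lt (X j) u ∧ s ∪ t = X j ∪ u ∧ X j ⊆ s) ∧
    (∃ j, ∃ u ∈ FUs X, Lt u (X j) ∧ s ∪ t = u ∪ X j) := by
  classical
  obtain ⟨I, hI, rfl⟩ := hs
  obtain ⟨J, hJ, rfl⟩ := ht
  have hIJ : ∀ i ∈ I, ∀ j ∈ J, i < j := by
    intro i hi j hj
    exact hX.index_lt (hst.mono (Finset.subset_biUnion_of_mem X hi)
      (Finset.subset_biUnion_of_mem X hj))
  have hun : ∀ K : Finset ℕ, ∀ k ∈ K, K.biUnion X = X k ∪ (K.erase k).biUnion X := by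
    intro K k hk
    conv_lhs => rw [← Finset.insert_erase hk]
    rw [Finset.biUnion_insert]
  have hst' : I.biUnion X ∪ J.biUnion X = (I ∪ J).biUnion X := Finset.union_biUnion.symm
  constructor
  · have hj0 : I.min' hI ∈ I := I.min'_mem hI
    obtain ⟨j, hj⟩ := hJ
    have hjne : j ≠ I.min' hI := fun h => by
      have := hIJ _ hj0 j hj; omega
    refine ⟨I.min' hI, ((I ∪ J).erase (I.min' hI)).biUnion X,
      ⟨_, ⟨j, Finset.mem_erase.2 ⟨hjne, Finset.mem_union_right _ hj⟩⟩, rfl⟩, ?_, ?_, ?_⟩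
    · intro a ha b hb
      obtain ⟨k, hk, hb⟩ := Finset.mem_biUnion.1 hb
      obtain ⟨hk1, hk2⟩ := Finset.mem_erase.1 hk
      refine hX.lt_of_lt ?_ a ha b hb
      rcases Finset.mem_union.1 hk2 with h | h
      · have := I.min'_le k h; omega
      · exact hIJ _ hj0 k h
    · rw [hst']
      exact hun _ _ (Finset.mem_union_left _ hj0)
    · exact Finset.subset_biUnion_of_mem X hj0
  · have hj1 : J.max' hJ ∈ J := J.max'_mem hJ
    obtain ⟨i, hi⟩ := hI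
    have hine : i ≠ J.max' hJ := fun h => by
      have := hIJ i hi _ hj1; omega
    refine ⟨J.max' hJ, ((I ∪ J).erase (J.max' hJ)).biUnion X,
      ⟨_, ⟨i, Finset.mem_erase.2 ⟨hine, Finset.mem_union_left _ hi⟩⟩, rfl⟩, ?_, ?_⟩
    · intro b hb a ha
      obtain ⟨k, hk, hb⟩ := Finset.mem_biUnion.1 hb
      obtain ⟨hk1, hk2⟩ := Finset.mem_erase.1 hk
      refine hX.lt_of_lt ?_ b hb a ha
      rcases Finset.mem_union.1 hk2 with h | h
      · exact hIJ k h _ hj1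
      · have := J.le_max' k h; omega
    · rw [hst', Finset.union_comm (Finset.biUnion _ _)]
      exact hun _ _ (Finset.mem_union_right _ hj1)

theorem not_three_le_stable {W : Ultrafilter (Finset ℕ)} (hW : OU W) (hS : Stable W)
    (V : Fin 3 → Ultrafilter ℕ) (hn : ∀ i, Nonprincipal (V i))
    (hs : ∀ i j, i ≠ j → Sep (V i) (V j)) (f : Fin 3 → Set (Finset ℕ) → Set ℕ)
    (hf : ∀ i, TMap W (V i) (f i)) : False := by
  classical
  obtain ⟨gb, X, κ, α, lam, rho, h⟩ := exists_hom hW hS V f hf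
  have hX := (h 0).block
  -- the separating function
  have hg : ∀ n, ∃ b, ∀ j, κ (mn (X j)) ≤ n → gb (mx (X j)) ≤ b := by
    intro n
    obtain ⟨l, hl⟩ := (h 0).exists_l hX n
    refine ⟨∑ j ∈ Finset.range l, gb (mx (X j)), ?_⟩
    intro j hj
    have hjl : j < l := by
      by_contra hc
      have := hl j (by omega)
      omega
    exact Finset.single_le_sum (f := fun j => gb (mx (X j))) (fun _ _ => Nat.zero_le _)
      (Finset.mem_range.2 hjl)
  choose g hg using hg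
  -- separated sets
  have hsep : ∀ i j : Fin 3, ∃ A ∈ V i, ∃ B ∈ V j, i ≠ j → ∀ a ∈ A, ∀ b ∈ B,
      (a ≤ b → g a < b) ∧ (b ≤ a → g b < a) := by
    intro i j
    by_cases hij : i = j
    · exact ⟨univ, Filter.univ_mem, univ, Filter.univ_mem, fun h => absurd hij h⟩
    · obtain ⟨A, hA, B, hB, h1⟩ := hs i j hij g
      exact ⟨A, hA, B, hB, fun _ => h1⟩
  choose A hA B hB hAB using hsep
  let E : Fin 3 → Set ℕ := fun i => (⋂ j, A i j) ∩ ⋂ j, B j i
  have hE : ∀ i, E i ∈ V i := fun i => Filter.inter_mem (Filter.iInter_mem.2 fun j => hA i j)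
    (Filter.iInter_mem.2 fun j => hB j i)
  have hEE : ∀ i j, i ≠ j → ∀ a ∈ E i, ∀ b ∈ E j, (a ≤ b → g a < b) ∧ (b ≤ a → g b < a) := by
    intro i j hij a ha b hb
    exact hAB i j hij a (mem_iInter.1 ha.1 j) b (mem_iInter.1 hb.2 i)
  -- no window meets two of the sets
  have hwin : ∀ i i', i ≠ i' → ∀ j, ∀ n ∈ E i, ∀ n' ∈ E i',
      κ (mn (X j)) ≤ n → n ≤ gb (mx (X j)) → κ (mn (X j)) ≤ n' → n' ≤ gb (mx (X j)) → False := by
    intro i i' hii j n hn n' hn' h1 h2 h3 h4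
    obtain ⟨h5, h6⟩ := hEE i i' hii n hn n' hn'
    rcases le_total n n' with h7 | h7
    · have h8 := h5 h7
      have h9 := hg n j h1
      omega
    · have h8 := h6 h7
      have h9 := hg n' j h3
      omega
  -- the set `Z`
  choose C hC hCE using fun i => (hf i).cof (E i) (hE i)
  obtain ⟨Z, hZ, hZW, hZC⟩ := hW (FUs X ∩ ⋂ i, C i)
    (Filter.inter_mem (h 0).mem (Filter.iInter_mem.2 hC))
  have hZX : FUs Z ⊆ FUs X := hZC.trans inter_subset_left
  have hZE : ∀ i, f i (FUs Z) ⊆ E i := fun i =>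
    ((hf i).mono _ _ (hZC.trans (inter_subset_right.trans (iInter_subset _ i)))).trans (hCE i)
  choose l hl using fun i => (h i).claim3 hW (hf i) (hn i) hZ hZW hZX
  let m : ℕ := ∑ i, l i
  have hlm : ∀ i, l i ≤ m := fun i =>
    Finset.single_le_sum (f := fun i => l i) (fun _ _ => Nat.zero_le _) (Finset.mem_univ i)
  have hor : ∀ i, lam i (pref Z m) ∨ rho i (pref Z m) := fun i => hl i m (hlm i)
  set P := pref Z m with hPdef
  have hZm : Z m ∈ FUs X := hZX (Block.mem_FUs m)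
  have hZm1 : Z (m + 1) ∈ FUs X := hZX (Block.mem_FUs (m + 1))
  obtain ⟨⟨j, u, hu, hju, hsj, hjs⟩, ⟨j', u', hu', hju', hsj'⟩⟩ :=
    exists_first_last hX hZm hZm1 (hZ.lt m)
  have hPZ : ∀ y ∈ P, y ∈ FUs Z := pref_mem m
  have hP1 : ∀ y ∈ P, Lt y (Z m) := fun y hy => pref_lt hZ m y hy m le_rfl
  have hP2 : ∀ y ∈ P, Lt y (Z (m + 1)) := fun y hy => pref_lt hZ m y hy (m + 1) (by omega)
  -- everything forced by `P ⊕ (Z m ∪ Z (m+1))` is in `E i`
  have hforce : ∀ i, Fg W (f i) (ext P (Z m ∪ Z (m + 1))) ⊆ E i := by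
    intro i
    refine (Fg_subset_of_Cl (hf i) hZW (Cl_FUs Z) ?_).trans (hZE i)
    exact ext_mem_of_Cl (Cl_FUs Z) hPZ (FUs_union (Block.mem_FUs m) (Block.mem_FUs (m + 1)))
  have hlam : ∀ i, lam i P → ∃ n ∈ E i, κ (mn (X j)) ≤ n ∧ n ≤ gb (mx (X j)) := by
    intro i hi
    obtain ⟨n, h1, h2, h3⟩ := (h i).left hW (Block.mem_FUs j) hu hju
      (fun y hy => ⟨hZX (hPZ y hy), (hP1 y hy).mono (Finset.Subset.refl _) hjs⟩) hi
    rw [← hsj] at h1
    exact ⟨n, hforce i h1, h2, h3⟩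
  have hrho : ∀ i, rho i P → ∃ n ∈ E i, κ (mn (X j')) ≤ n ∧ n ≤ gb (mx (X j')) := by
    intro i hi
    obtain ⟨n, h1, h2, h3⟩ := (h i).right hW (hf i) hu' (Block.mem_FUs j') hju'
      (fun y hy => ⟨hZX (hPZ y hy), ((hP1 y hy).union_right (hP2 y hy)).mono
        (Finset.Subset.refl _) (by rw [hsj']; exact Finset.subset_union_left)⟩) hi
    rw [← hsj'] at h1
    exact ⟨n, hforce i h1, h2, h3⟩
  have hl2 : ∀ i i', i ≠ i' → lam i P → lam i' P → False := by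
    intro i i' hii h1 h2
    obtain ⟨n, hn1, hn2, hn3⟩ := hlam i h1
    obtain ⟨n', hn1', hn2', hn3'⟩ := hlam i' h2
    exact hwin i i' hii j n hn1 n' hn1' hn2 hn3 hn2' hn3'
  have hr2 : ∀ i i', i ≠ i' → rho i P → rho i' P → False := by
    intro i i' hii h1 h2
    obtain ⟨n, hn1, hn2, hn3⟩ := hrho i h1
    obtain ⟨n', hn1', hn2', hn3'⟩ := hrho i' h2
    exact hwin i i' hii j' n hn1 n' hn1' hn2 hn3 hn2' hn3'
  have h01 : (0 : Fin 3) ≠ 1 := by decide
  have h02 : (0 : Fin 3) ≠ 2 := by decide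
  have h12 : (1 : Fin 3) ≠ 2 := by decide
  rcases hor 0 with a0 | a0 <;> rcases hor 1 with a1 | a1 <;> rcases hor 2 with a2 | a2
  · exact hl2 0 1 h01 a0 a1
  · exact hl2 0 1 h01 a0 a1
  · exact hl2 0 2 h02 a0 a2
  · exact hr2 1 2 h12 a1 a2
  · exact hl2 1 2 h12 a1 a2
  · exact hr2 0 2 h02 a0 a2
  · exact hr2 0 1 h01 a0 a1
  · exact hr2 0 1 h01 a0 a1

end Pool.Agent.Lib.MP_1c3dfa_lc
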