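import Pool.Agent.Lib.MP_1c3dfa_lc.Basic
import Pool.Agent.Lib.MP_1c3dfa_lc.Mono

set_option autoImplicit false

/-! # M9: from `FIN` to `Finset ℕ` -/

namespace Pool.Agent.Lib.MP_1c3dfa_lc

open Set

theorem preimage_FUs (X : ℕ → FIN) :
    (Subtype.val : FIN → Finset ℕ) ⁻¹' (FUs fun i => (X i).1) = FU X := rfl

theorem block_of_isBlockSeq {X : ℕ → FIN} (h : IsBlockSeq X) : Block fun i => (X i).1 :=
  ⟨fun n => (X n).2, h⟩

theorem transfer {W : Ultrafilter FIN} (hW : IsOrderedUnion W) (hS : IsStable W) :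
    OU (W.map Subtype.val) ∧ Stable (W.map Subtype.val) := by
  constructor
  · intro A hA
    rw [Ultrafilter.mem_map] at hA
    obtain ⟨X, hX, hXW, hXA⟩ := hW _ hA
    refine ⟨fun i => (X i).1, block_of_isBlockSeq hX, ?_, ?_⟩
    · rw [Ultrafilter.mem_map, preimage_FUs]; exact hXW
    · intro s hs
      have hne := (block_of_isBlockSeq hX).nonempty_of_mem hs
      exact hXA (show (⟨s, hne⟩ : FIN) ∈ FU X from hs)
  · intro X hX hXW
    obtain ⟨Y, hY, hYW, hYX⟩ := hS (fun n i => ⟨X n i, (hX n).ne i⟩) (fun n => (hX n).lt)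
      (fun n => by
        have := hXW n
        rw [Ultrafilter.mem_map] at this
        exact this)
    refine ⟨fun i => (Y i).1, block_of_isBlockSeq hY, ?_, ?_⟩
    · rw [Ultrafilter.mem_map, preimage_FUs]; exact hYW
    · intro n
      obtain ⟨m, hm⟩ := hYX n
      refine ⟨m, ?_⟩
      intro s hs
      have hne := ((block_of_isBlockSeq hY).shift m).nonempty_of_mem hs
      exact hm (show (⟨s, hne⟩ : FIN) ∈ FU (fun i => Y (m + i)) from hs)

theorem transfer_le {W : Ultrafilter FIN} {V : Ultrafilter ℕ} (h : TukeyLE V W) :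
    TukeyLE V (W.map Subtype.val) := by
  obtain ⟨g, hg⟩ := exists_tMap h
  refine TMap.tukeyLE (g := fun S => g (Subtype.val ⁻¹' S)) ⟨?_, ?_, ?_⟩
  · intro S T hST
    exact hg.mono _ _ (preimage_mono hST)
  · intro S hS
    exact hg.mem _ hS
  · intro B hB
    obtain ⟨X, hX, hXB⟩ := hg.cof B hB
    refine ⟨Subtype.val '' X, ?_, ?_⟩
    · rw [Ultrafilter.mem_map, preimage_image_eq _ Subtype.val_injective]; exact hX
    · simp only [preimage_image_eq _ Subtype.val_injective]
      exact hXB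

end Pool.Agent.Lib.MP_1c3dfa_lc
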